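import Pool.Agent.H12.CSP.A.Helper460_CSP.Gap2

set_option autoImplicit false
set_option linter.unusedSectionVars false
set_option linter.unusedSimpArgs false
set_option linter.unusedVariables false

/-! Quotients of `Aut (F)` killing the triple commutator transvections. -/

namespace Pool.Agent.H12.CSP

open Pool.Agent.Helper460_OutF Pool.Agent.Helper460_CSP
open FreeGroup (of)
open Pool.Agent.Helper156.OF (SP toAut toAut_gl gl nv gl_nv gl_true Lt SP.map_nv)
open scoped commutatorElement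

variable {ι : Type} [DecidableEq ι] [Fintype ι]

section cl2

variable {X H : Type} [Group X] [Group H]

/-- The image has class at most two. -/
def Cl2 (f : X →* H) : Prop := ∀ u v w : X, Commute (f ⁅u, v⁆) (f w)

/-- The elements with central image. -/
def Cn (f : X →* H) : Subgroup X where
  carrier := {x | ∀ w, Commute (f x) (f w)}
  mul_mem' := fun {a b} ha hb w => by rw [map_mul]; exact (ha w).mul_left (hb w)
  one_mem' := fun w => by rw [map_one]; exact Commute.one_left _
  inv_mem' := fun {a} ha w => by rw [map_inv]; exact (ha w).inv_left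

instance (f : X →* H) : (Cn f).Normal := by
  refine ⟨fun a ha g w => ?_⟩
  have h1 : f (g * a * g⁻¹) = f a := by
    rw [map_mul, map_mul, map_inv, ← (ha g).eq, mul_inv_cancel_right]
  rw [h1]; exact ha w

lemma cl2_of_gen (f : FreeGroup ι →* H) (h : ∀ j k l : ι, Commute (f ⁅(of j : FreeGroup ι), of k⁆) (f (of l))) :
    Cl2 f := by
  have h1 : ∀ j k : ι, ⁅(of j : FreeGroup ι), of k⁆ ∈ Cn f := by
    intro j k w
    induction w using FreeGroup.induction_on with
    | C1 => rw [map_one]; exact Commute.one_right _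
    | of l => exact h j k l
    | inv_of l ih => rw [map_inv]; exact ih.inv_right
    | mul a b ha hb => rw [map_mul]; exact ha.mul_right hb
  intro u v w
  have h2 := commute_of_gen (QuotientGroup.mk' (Cn f)) (fun j k => by
    rw [← commutatorElement_eq_one_iff_commute, ← map_commutatorElement]
    exact (QuotientGroup.eq_one_iff _).2 (h1 j k)) u v
  rw [← commutatorElement_eq_one_iff_commute, ← map_commutatorElement] at h2
  exact (QuotientGroup.eq_one_iff _).1 h2 w

namespace Cl2

variable {f : X →* H} (h : Cl2 f)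

include h

lemma mul_left (u u' v : X) : f ⁅u * u', v⁆ = f ⁅u, v⁆ * f ⁅u', v⁆ := by
  have e : ⁅u * u', v⁆ = u * ⁅u', v⁆ * u⁻¹ * ⁅u, v⁆ := by
    simp only [commutatorElement_def]; group
  rw [e, map_mul, map_mul, map_mul, map_inv, ← (h u' v u).eq, mul_inv_cancel_right]
  exact h _ _ _

lemma swap (u v : X) : f ⁅v, u⁆ = (f ⁅u, v⁆)⁻¹ := by
  rw [← map_inv, commutatorElement_inv]

lemma mul_right (u v v' : X) : f ⁅u, v * v'⁆ = f ⁅u, v⁆ * f ⁅u, v'⁆ := by
  rw [h.swap (v * v') u, h.mul_left, mul_inv_rev, ← h.swap v' u, ← h.swap v u]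
  exact h _ _ _

omit h in
lemma one_left (v : X) : f ⁅(1 : X), v⁆ = 1 := by rw [commutatorElement_one_left, map_one]

lemma inv_left (u v : X) : f ⁅u⁻¹, v⁆ = (f ⁅u, v⁆)⁻¹ := by
  rw [eq_inv_iff_mul_eq_one, ← h.mul_left, inv_mul_cancel, one_left]

lemma inv_right (u v : X) : f ⁅u, v⁻¹⁆ = (f ⁅u, v⁆)⁻¹ := by
  rw [h.swap v⁻¹ u, h.inv_left, inv_inv, h.swap u v]

omit h in
lemma same (v : X) : f ⁅v, v⁆ = 1 := by rw [commutatorElement_self, map_one]

lemma conj_left (u x v : X) : f ⁅x⁻¹ * u * x, v⁆ = f ⁅u, v⁆ := by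
  rw [h.mul_left, h.mul_left, h.inv_left, mul_assoc]
  have : Commute (f ⁅u, v⁆) (f ⁅x, v⁆) := h _ _ _
  rw [this.eq, inv_mul_cancel_left]

lemma conj_left' (u x v : X) : f ⁅x * u * x⁻¹, v⁆ = f ⁅u, v⁆ := by
  have := h.conj_left u x⁻¹ v
  rwa [inv_inv] at this

end Cl2

end cl2

lemma rr_kil (i : ι) (w : FreeGroup ι) : rr i (kil i w) = rr i w := by
  apply aut_ext
  intro j
  by_cases h : j = i
  · subst h; rw [rr_self, rr_self, kil_kil]
  · rw [rr_ne h, rr_ne h]

lemma ll_kil (i : ι) (w : FreeGroup ι) : ll i (kil i w) = ll i w := by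
  apply aut_ext
  intro j
  by_cases h : j = i
  · subst h; rw [ll_self, ll_self, kil_kil]
  · rw [ll_ne h, ll_ne h]

lemma cc_kil (i : ι) (w : FreeGroup ι) : cc i (kil i w) = cc i w := by
  rw [cc_eq, cc_eq, rr_kil, ll_kil]

/-- The inversion of one letter. -/
abbrev rho (p : ι) : MulAut (FreeGroup ι) := toAut (rhoP p)

lemma rho_self (p : ι) : rho p (of p) = (of p)⁻¹ := by
  show toAut (rhoP p) (of p) = _
  rw [toAut_rhoP, if_pos rfl]

lemma rho_ne {p l : ι} (h : l ≠ p) : rho p (of l) = of l := by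
  show toAut (rhoP p) (of l) = _
  rw [toAut_rhoP, if_neg h]

lemma kil_rho (p : ι) (w : FreeGroup ι) : kil p (rho p w) = kil p w := by
  have : (kil p).comp (rho p).toMonoidHom = kil p := by
    ext1 l
    show kil p (rho p (of l)) = kil p (of l)
    by_cases h : l = p
    · subst h; rw [rho_self, map_inv, kil_self, inv_one]
    · rw [rho_ne h]
  exact DFunLike.congr_fun this w

lemma rho_rr' (p : ι) (w : FreeGroup ι) : rho p * rr p w * (rho p)⁻¹ = ll p w := by
  rw [mul_inv_eq_iff_eq_mul]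
  apply aut_ext
  intro l
  rw [MulAut.mul_apply, MulAut.mul_apply]
  by_cases h : l = p
  · subst h
    rw [rr_self, map_mul, rho_self, map_inv, ll_self, mul_inv_rev, inv_inv]
    have : rho l (kil l w) = kil l w := by
      have h1 : ((rho l).toMonoidHom).comp (kil l) = kil l := by
        ext1 m
        show rho l (kil l (of m)) = kil l (of m)
        by_cases hm : m = l
        · subst hm; rw [kil_self, map_one]
        · rw [kil_ne hm, rho_ne hm]
      exact DFunLike.congr_fun h1 w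
    rw [this]
  · rw [rr_ne h, rho_ne h, ll_ne h]


/-- The homomorphism `q` kills the inner automorphisms and the triple commutator transvections. -/
structure K3 {G : Type} [Group G] (q : MulAut (FreeGroup ι) →* G) : Prop where
  inn : ∀ g, q (MulAut.conj g) = 1
  tri : ∀ i j k l : ι, i ≠ j → i ≠ k → i ≠ l → j ≠ k → j ≠ l → k ≠ l →
    q (rr i ⁅⁅(of j : FreeGroup ι), of k⁆, of l⁆) = 1
  ex : ∀ i j k : ι, ∃ l, l ≠ i ∧ l ≠ j ∧ l ≠ k

section

variable {G : Type} [Group G] {q : MulAut (FreeGroup ι) →* G}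

namespace K3

variable (h : K3 q)

include h

lemma cl_rr (i : ι) : Cl2 (q.comp (rr i)) := by
  have key : ∀ j k l : ι, i ≠ j → i ≠ k → i ≠ l → j ≠ k → j ≠ l → k ≠ l →
      Commute (q (rr i ⁅(of j : FreeGroup ι), of k⁆)) (q (rr i (of l))) := by
    intro j k l h1 h2 h3 h4 h5 h6
    have h7 := h.tri i j k l h1 h2 h3 h4 h5 h6
    rwa [map_commutatorElement (rr i) _ (of l), map_commutatorElement,
      commutatorElement_eq_one_iff_commute] at h7
  -- the case `l = k`
  have key2 : ∀ j k : ι, i ≠ j → i ≠ k → j ≠ k →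
      Commute (q (rr i ⁅(of j : FreeGroup ι), of k⁆)) (q (rr i (of k))) := by
    intro j k h1 h2 h3
    obtain ⟨l, hli, hlj, hlk⟩ := h.ex i j k
    have h4 := key j k l h1 h2 hli.symm h3 hlj.symm hlk.symm
    have hP : Pres i (rr l (of k)) := pres_rr hli.symm (kil_ne h2.symm)
    have h5 : Commute (q (rr i ⁅(of j : FreeGroup ι), of k⁆)) (q (rr i (of l * of k))) := by
      have e1 := conj_rr (q := q) hP ⁅(of j : FreeGroup ι), of k⁆
      have e2 := conj_rr (q := q) hP (of l)
      rw [map_commutatorElement (rr l (of k)), rr_ne hlj.symm, rr_ne hlk.symm] at e1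
      rw [rr_self, kil_ne hlk.symm] at e2
      rw [← e1, ← e2]
      exact (Commute.conj_iff _).2 h4
    rw [map_mul, map_mul] at h5
    have h6 := h4.inv_right.mul_right h5
    rwa [inv_mul_cancel_left] at h6
  apply cl2_of_gen
  intro j k l
  simp only [MonoidHom.comp_apply]
  by_cases h1 : i = j
  · subst h1
    have : rr i ⁅(of i : FreeGroup ι), of k⁆ = 1 := by
      rw [map_commutatorElement, rr_of_self, commutatorElement_one_left]
    rw [this, map_one]; exact Commute.one_left _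
  by_cases h2 : i = k
  · subst h2
    have : rr i ⁅(of j : FreeGroup ι), of i⁆ = 1 := by
      rw [map_commutatorElement, rr_of_self, commutatorElement_one_right]
    rw [this, map_one]; exact Commute.one_left _
  by_cases h3 : i = l
  · subst h3
    rw [rr_of_self, map_one]; exact Commute.one_right _
  by_cases h4 : j = k
  · subst h4
    rw [commutatorElement_self, map_one, map_one]; exact Commute.one_left _
  by_cases h5 : k = l
  · subst h5
    exact key2 j k h1 h2 h4
  by_cases h6 : j = l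
  · subst h6
    have := key2 k j h2 h1 (Ne.symm h4)
    rw [← commutatorElement_inv, map_inv, map_inv]
    exact this.inv_left
  exact key j k l h1 h2 h3 h4 h6 h5

lemma cl_ll (i : ι) : Cl2 (q.comp (ll i)) := by
  intro u v w
  have h1 := h.cl_rr i u v w
  simp only [MonoidHom.comp_apply] at h1 ⊢
  rw [← rho_rr', ← rho_rr', map_mul, map_mul, map_mul, map_mul, map_inv]
  exact (Commute.conj_iff _).2 h1

/-- `q (rr i ⁅u, v⁆)` commutes with `q (lr i p)`. -/
lemma rc_rr (i : ι) (u v w : FreeGroup ι) : Commute (q (rr i ⁅u, v⁆)) (q (rr i w)) :=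
  h.cl_rr i u v w

omit h in
lemma rc_ll (i : ι) (u w : FreeGroup ι) : Commute (q (rr i u)) (q (ll i w)) :=
  (ll_rr_commute i _ _).symm

lemma lc_ll (i : ι) (u v w : FreeGroup ι) : Commute (q (ll i ⁅u, v⁆)) (q (ll i w)) :=
  h.cl_ll i u v w

lemma cc_rr (i : ι) (u v w : FreeGroup ι) : Commute (q (cc i ⁅u, v⁆)) (q (rr i w)) := by
  rw [cc_eq, map_mul]
  exact (ll_rr_commute i _ _).mul_left (h.rc_rr i u v w)

lemma cc_ll (i : ι) (u v w : FreeGroup ι) : Commute (q (cc i ⁅u, v⁆)) (q (ll i w)) := by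
  rw [cc_eq, map_mul]
  exact (h.lc_ll i u v w).mul_left (rc_ll i _ _)

lemma cc_cc (i : ι) (u v w : FreeGroup ι) : Commute (q (cc i ⁅u, v⁆)) (q (cc i w)) := by
  rw [cc_eq i w, map_mul]
  exact (h.cc_ll i u v w).mul_right (h.cc_rr i u v w)

lemma cl_cc (i : ι) : Cl2 (q.comp (cc i)) := h.cc_cc i

lemma rr_tri (i : ι) (u v w : FreeGroup ι) : q (rr i ⁅⁅u, v⁆, w⁆) = 1 := by
  rw [map_commutatorElement (rr i) _ w, map_commutatorElement, commutatorElement_eq_one_iff_commute]
  exact h.rc_rr i u v w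

lemma ll_tri (i : ι) (u v w : FreeGroup ι) : q (ll i ⁅⁅u, v⁆, w⁆) = 1 := by
  rw [map_commutatorElement (ll i) _ w, map_commutatorElement, commutatorElement_eq_one_iff_commute]
  exact h.lc_ll i u v w

/-- The transvection `x_p ↦ x_p x_i` commutes with the partial conjugation of `x_i` by a
commutator without `x_i`, `x_p`. -/
lemma cc_rr_of {i p : ι} (hip : i ≠ p) {u v : FreeGroup ι} (hi : kil i ⁅u, v⁆ = ⁅u, v⁆)
    (hp : kil p ⁅u, v⁆ = ⁅u, v⁆) : Commute (q (cc i ⁅u, v⁆)) (q (rr p (of i))) := by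
  have h1 := congrArg q (id4 hip hi hp)
  have h2 : q (rr p (⁅u, v⁆ * of i * ⁅u, v⁆⁻¹ * (of i)⁻¹)) = 1 := h.rr_tri p u v (of i)
  rw [map_mul, map_mul, map_mul, h2, mul_one] at h1
  exact h1.symm

lemma cc_ll_of {i p : ι} (hip : i ≠ p) {u v : FreeGroup ι} (hi : kil i ⁅u, v⁆ = ⁅u, v⁆)
    (hp : kil p ⁅u, v⁆ = ⁅u, v⁆) : Commute (q (cc i ⁅u, v⁆)) (q (ll p (of i))) := by
  have h1 := h.cc_rr_of hip hi hp
  have hP : Pres i (rho p) := by
    refine ⟨rho_ne hip, fun j hj => ?_⟩
    by_cases hjp : j = p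
    · subst hjp; rw [rho_self, map_inv, kil_ne hj]
    · rw [rho_ne hjp, kil_ne hj]
  have h2 : rho p ⁅u, v⁆ = ⁅u, v⁆ := by
    have h3 : ((rho p).toMonoidHom).comp (kil p) = kil p := by
      ext1 m
      show rho p (kil p (of m)) = kil p (of m)
      by_cases hm : m = p
      · subst hm; rw [kil_self, map_one]
      · rw [kil_ne hm, rho_ne hm]
    have h4 : rho p (kil p ⁅u, v⁆) = kil p ⁅u, v⁆ := DFunLike.congr_fun h3 _
    rwa [hp] at h4
  have h5 := conj_cc (q := q) hP ⁅u, v⁆
  rw [h2] at h5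
  rw [← rho_rr', map_mul, map_mul, map_inv, ← h5]
  exact (Commute.conj_iff _).2 h1

/-- Independence of the index. -/
lemma indep {i p : ι} (hip : i ≠ p) {u v : FreeGroup ι} (hi : kil i ⁅u, v⁆ = ⁅u, v⁆)
    (hp : kil p ⁅u, v⁆ = ⁅u, v⁆) : q (cc i ⁅u, v⁆) = q (cc p ⁅u, v⁆) := by
  have hcomm : rr i (of p) * (cc i ⁅u, v⁆ * cc p ⁅u, v⁆) =
      cc i ⁅u, v⁆ * cc p ⁅u, v⁆ * rr i (of p) := by
    generalize ⁅u, v⁆ = w at hi hp
    apply aut_ext
    intro j
    simp only [MulAut.mul_apply]
    by_cases h1 : j = p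
    · subst h1
      simp only [cc_self, map_mul, map_inv, hp, cc_fix i w hi, cc_ne hip.symm, rr_ne hip.symm,
        rr_fix i _ hi]
    · by_cases h2 : j = i
      · subst h2
        simp only [cc_ne hip, cc_self, rr_self, map_mul, map_inv, hi, kil_ne hip.symm,
          cc_fix _ w hp, rr_fix _ _ hi, cc_ne hip.symm, hp, cc_fix _ w hi]
        group
      · simp only [cc_ne h1, cc_ne h2, rr_ne h2]
  have hcomml : ll i (of p) * (cc i ⁅u, v⁆ * cc p ⁅u, v⁆) =
      cc i ⁅u, v⁆ * cc p ⁅u, v⁆ * ll i (of p) := by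
    generalize ⁅u, v⁆ = w at hi hp
    apply aut_ext
    intro j
    simp only [MulAut.mul_apply]
    by_cases h1 : j = p
    · subst h1
      simp only [cc_self, map_mul, map_inv, hp, cc_fix i w hi, cc_ne hip.symm, ll_ne hip.symm,
        ll_fix i _ hi]
    · by_cases h2 : j = i
      · subst h2
        simp only [cc_ne hip, cc_self, ll_self, map_mul, map_inv, hi, kil_ne hip.symm,
          cc_fix _ w hp, ll_fix _ _ hi, cc_ne hip.symm, hp, cc_fix _ w hi]
        group
      · simp only [cc_ne h1, cc_ne h2, ll_ne h2]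
  have c1 : Commute (q (cc i ⁅u, v⁆)) (q (rr i (of p))) := h.cc_rr i u v _
  have c2 : Commute (q (cc i ⁅u, v⁆)) (q (ll i (of p))) := h.cc_ll i u v _
  have c3 : Commute (q (cc i ⁅u, v⁆)) (q (ll p (of i))) := h.cc_ll_of hip hi hp
  -- the signed transposition
  have e : ((ll i (of p))⁻¹ * ll p (of i) * rr i (of p)) * cc i ⁅u, v⁆ =
      cc p ⁅u, v⁆ * ((ll i (of p))⁻¹ * ll p (of i) * rr i (of p)) := by
    generalize ⁅u, v⁆ = w at hi hp
    have hinv : (ll i (of p))⁻¹ = ll i (of p)⁻¹ := (map_inv _ _).symm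
    rw [hinv]
    have L1 : ll i (of p)⁻¹ (of i) = of p * of i := by
      rw [ll_self, map_inv, inv_inv, kil_ne hip.symm]
    have L2 : ∀ l, l ≠ i → ll i (of p)⁻¹ (of l) = of l := fun l hl => ll_ne hl _
    have L3 : ll i (of p)⁻¹ w = w := ll_fix i _ hi
    generalize ll i (of p)⁻¹ = L at L1 L2 L3
    have hwp : ll p (of i) w = w := ll_fix _ _ hp
    have hwi : rr i (of p) w = w := rr_fix _ _ hi
    have hwc : cc p w w = w := cc_fix _ _ hp
    have a1 : rr i (of p) (of i) = of i * of p := by rw [rr_self, kil_ne hip.symm]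
    have a2 : ll p (of i) (of p) = (of i)⁻¹ * of p := by rw [ll_self, kil_ne hip]
    have a3 : ll p (of i) (of i) = of i := ll_ne hip _
    have a4 : cc i w (of i) = w⁻¹ * of i * w := by rw [cc_self, hi]
    have a5 : cc p w (of p) = w⁻¹ * of p * w := by rw [cc_self, hp]
    apply aut_ext
    intro j
    simp only [MulAut.mul_apply]
    by_cases h1 : j = p
    · subst h1
      rw [cc_ne hip.symm, rr_ne hip.symm, a2, map_mul, map_inv, L1, L2 _ hip.symm]
      simp only [map_mul, map_inv, a5, cc_ne hip]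
      group
    · by_cases h2 : j = i
      · subst h2
        rw [a4, a1]
        simp only [map_mul, map_inv, hwi, hwp, a1, a2, a3, L1, L2 _ hip.symm, L3, a5, hwc,
          cc_ne hip]
        group
      · rw [cc_ne h2, rr_ne h2, ll_ne h1, L2 _ h2, cc_ne h1]
  have c4 : Commute (q ((ll i (of p))⁻¹ * ll p (of i) * rr i (of p))) (q (cc i ⁅u, v⁆)) := by
    rw [map_mul, map_mul, map_inv]
    exact ((c2.symm.inv_left).mul_left c3.symm).mul_left c1.symm
  have e2 := congrArg q e
  rw [map_mul, map_mul q (cc p _), c4.eq] at e2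
  exact mul_right_cancel e2

end K3

end

end Pool.Agent.H12.CSP
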