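import Pool.Agent.H12.CSP.T1

set_option autoImplicit false
set_option linter.unusedSectionVars false
set_option linter.unusedSimpArgs false
set_option linter.unusedVariables false

/-! The central subgroup. -/

namespace Pool.Agent.H12.CSP

open Pool.Agent.Helper460_OutF Pool.Agent.Helper460_CSP
open FreeGroup (of)
open Pool.Agent.Helper156.OF (SP toAut toAut_gl gl nv gl_nv gl_true Lt SP.map_nv)
open scoped commutatorElement

variable {ι : Type} [DecidableEq ι] [Fintype ι]

section

variable {G : Type} [Group G] {q : MulAut (FreeGroup ι) →* G}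

namespace K3

/-- The central elements. -/
noncomputable def zz (h : K3 q) (j k : ι) : G :=
  q (cc (h.ex j k k).choose ⁅(of j : FreeGroup ι), of k⁆)

variable (h : K3 q)

lemma zz_eq {i j k : ι} (hij : i ≠ j) (hik : i ≠ k) :
    q (cc i ⁅(of j : FreeGroup ι), of k⁆) = h.zz j k := by
  unfold zz
  have hs := (h.ex j k k).choose_spec
  set p := (h.ex j k k).choose
  by_cases hip : i = p
  · rw [hip]
  · exact h.indep hip (kil_comm_of hij.symm hik.symm) (kil_comm_of hs.1.symm hs.2.1.symm)

lemma zz_self (j : ι) : h.zz j j = 1 := by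
  unfold zz
  rw [commutatorElement_self, map_one, map_one]

lemma zz_swap (j k : ι) : h.zz k j = (h.zz j k)⁻¹ := by
  obtain ⟨i, h1, h2, -⟩ := h.ex j k k
  rw [← h.zz_eq h1 h2, ← h.zz_eq h2 h1, ← map_inv, ← map_inv, commutatorElement_inv]

lemma zz_cc_of (j k p r : ι) : Commute (h.zz j k) (q (cc p (of r))) := by
  by_cases hpr : p = r
  · subst hpr; rw [cc_of_self, map_one]; exact Commute.one_right _
  by_cases hjk : j = k
  · subst hjk; rw [zz_self]; exact Commute.one_left _
  by_cases hpj : p = j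
  · subst hpj
    obtain ⟨i, h1, h2, h3⟩ := h.ex p k r
    have hP : Pres i (cc p (of r)) := pres_cc h1 (kil_ne h3.symm)
    have e := conj_cc (q := q) hP ⁅(of p : FreeGroup ι), of k⁆
    rw [map_commutatorElement (cc p (of r)), cc_self, cc_ne (Ne.symm hjk)] at e
    have e2 : q (cc i ⁅(kil p (of r))⁻¹ * of p * kil p (of r), of k⁆) =
        q (cc i ⁅(of p : FreeGroup ι), of k⁆) := (h.cl_cc i).conj_left _ _ _
    rw [e2, h.zz_eq h1 h2] at e
    exact (commute_of_conj e).symm
  by_cases hpk : p = k
  · subst hpk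
    obtain ⟨i, h1, h2, h3⟩ := h.ex p j r
    have hP : Pres i (cc p (of r)) := pres_cc h1 (kil_ne h3.symm)
    have e := conj_cc (q := q) hP ⁅(of p : FreeGroup ι), of j⁆
    rw [map_commutatorElement (cc p (of r)), cc_self, cc_ne hjk] at e
    have e2 : q (cc i ⁅(kil p (of r))⁻¹ * of p * kil p (of r), of j⁆) =
        q (cc i ⁅(of p : FreeGroup ι), of j⁆) := (h.cl_cc i).conj_left _ _ _
    rw [e2, h.zz_eq h1 h2] at e
    rw [h.zz_swap p j]
    exact (commute_of_conj e).symm.inv_left
  · rw [← h.zz_eq hpj hpk]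
    exact h.cc_cc p _ _ _

lemma zz_cc (j k p : ι) (w : FreeGroup ι) : Commute (h.zz j k) (q (cc p w)) := by
  induction w using FreeGroup.induction_on with
  | C1 => rw [map_one, map_one]; exact Commute.one_right _
  | of r => exact h.zz_cc_of j k p r
  | inv_of r ih => rw [map_inv, map_inv]; exact ih.inv_right
  | mul a b ha hb => rw [map_mul, map_mul]; exact ha.mul_right hb

lemma zz_zz (j k l m : ι) : Commute (h.zz j k) (h.zz l m) := by
  unfold zz
  exact h.zz_cc j k _ _

/-- The subgroup generated by the central elements. -/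
def Zs (h : K3 q) : Subgroup G := Subgroup.closure (Set.range fun p : ι × ι => h.zz p.1 p.2)

lemma zz_mem (j k : ι) : h.zz j k ∈ h.Zs := Subgroup.subset_closure ⟨(j, k), rfl⟩

lemma Zs_comm {a b : G} (ha : a ∈ h.Zs) (hb : b ∈ h.Zs) : Commute a b := by
  have h1 : ∀ j k, Commute (h.zz j k) b := by
    intro j k
    induction hb using Subgroup.closure_induction with
    | mem x hx => obtain ⟨⟨l, m⟩, rfl⟩ := hx; exact h.zz_zz _ _ _ _
    | one => exact Commute.one_right _
    | mul x y _ _ hx hy => exact hx.mul_right hy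
    | inv x _ hx => exact hx.inv_right
  induction ha using Subgroup.closure_induction with
  | mem x hx => obtain ⟨⟨l, m⟩, rfl⟩ := hx; exact h1 l m
  | one => exact Commute.one_left _
  | mul x y _ _ hx hy => exact hx.mul_left hy
  | inv x _ hx => exact hx.inv_left

instance Zcomm (h : K3 q) : CommGroup h.Zs :=
  { (inferInstance : Group h.Zs) with
    mul_comm := fun a b => Subtype.ext (h.Zs_comm a.2 b.2) }

variable [LinearOrder ι]

/-- The generators, indexed by pairs. -/
noncomputable def Zg (h : K3 q) (p : ι × ι) : h.Zs :=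
  if p.1 < p.2 then ⟨h.zz p.1 p.2, h.zz_mem _ _⟩ else 1

/-- The evaluation on a matrix. -/
noncomputable def Th (h : K3 q) (t : ι × ι → ℤ) : h.Zs := Rr h.Zg t

/-- The alternating matrix of two vectors. -/
def alt (u v : ι → ℤ) : ι × ι → ℤ := fun p => u p.1 * v p.2 - u p.2 * v p.1

/-- The alternating form. -/
noncomputable def be (h : K3 q) (u v : ι → ℤ) : h.Zs := h.Th (alt u v)

lemma be_add_left (u u' v : ι → ℤ) : h.be (u + u') v = h.be u v * h.be u' v := by
  unfold be Th
  rw [← Rr_add]
  congr 1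
  funext p
  simp only [alt, Pi.add_apply]
  ring

lemma be_neg_left (u v : ι → ℤ) : h.be (-u) v = (h.be u v)⁻¹ := by
  unfold be Th
  rw [← Rr_neg]
  congr 1
  funext p
  simp only [alt, Pi.neg_apply]
  ring

lemma be_swap (u v : ι → ℤ) : h.be v u = (h.be u v)⁻¹ := by
  unfold be Th
  rw [← Rr_neg]
  congr 1
  funext p
  simp only [alt, Pi.neg_apply]
  ring

lemma be_add_right (u v v' : ι → ℤ) : h.be u (v + v') = h.be u v * h.be u v' := by
  rw [h.be_swap (v + v') u, be_add_left, mul_inv, ← h.be_swap, ← h.be_swap]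

lemma be_neg_right (u v : ι → ℤ) : h.be u (-v) = (h.be u v)⁻¹ := by
  rw [h.be_swap (-v) u, be_neg_left, inv_inv, h.be_swap u v]

lemma be_zero_left (v : ι → ℤ) : h.be 0 v = 1 := by
  have e : alt (0 : ι → ℤ) v = 0 := by
    funext p
    simp only [alt, Pi.zero_apply]
    ring
  unfold be Th
  rw [e, Rr_zero]

lemma be_zero_right (v : ι → ℤ) : h.be v 0 = 1 := by
  rw [h.be_swap 0 v, be_zero_left, inv_one]

lemma be_single (j k : ι) : (h.be (Pi.single j 1) (Pi.single k 1) : G) = h.zz j k := by
  have e : alt (Pi.single j (1 : ℤ) : ι → ℤ) (Pi.single k (1 : ℤ) : ι → ℤ) =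
      (Pi.single (j, k) (1 : ℤ) - Pi.single (k, j) (1 : ℤ) : ι × ι → ℤ) := by
    funext ⟨a, b⟩
    simp only [alt, Pi.sub_apply, Pi.single_apply, Prod.mk.injEq]
    by_cases h1 : a = j <;> by_cases h2 : b = k <;> by_cases h3 : a = k <;> by_cases h4 : b = j <;>
      by_cases h5 : j = k <;> simp_all [ite_and]
  unfold be Th
  rw [e, Rr_sub, Rr_single, Rr_single]
  unfold Zg
  rcases lt_trichotomy j k with h1 | h1 | h1
  · simp only [if_pos h1, if_neg (not_lt.2 h1.le), inv_one, mul_one]
  · subst h1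
    simp [zz_self]
  · simp only [if_pos h1, if_neg (not_lt.2 h1.le), one_mul]
    show (h.zz k j)⁻¹ = _
    rw [← h.zz_swap]

lemma cc_be (i : ι) (u v : FreeGroup ι) :
    q (cc i ⁅u, v⁆) = (h.be (xv (kil i u)) (xv (kil i v)) : G) := by
  have base : ∀ j k : ι, q (cc i ⁅(of j : FreeGroup ι), of k⁆) =
      (h.be (xv (kil i (of j))) (xv (kil i (of k))) : G) := by
    intro j k
    by_cases hj : j = i
    · subst hj
      rw [kil_self, xv_one, be_zero_left, map_commutatorElement, cc_of_self,
        commutatorElement_one_left, map_one]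
      rfl
    by_cases hk : k = i
    · subst hk
      rw [kil_self, xv_one, be_zero_right, map_commutatorElement, cc_of_self,
        commutatorElement_one_right, map_one]
      rfl
    rw [kil_ne hj, kil_ne hk, xv_of, xv_of, be_single]
    exact h.zz_eq (Ne.symm hj) (Ne.symm hk)
  have cl : Cl2 (q.comp (cc i)) := h.cl_cc i
  have h1 : ∀ (j : ι) (v : FreeGroup ι), q (cc i ⁅(of j : FreeGroup ι), v⁆) =
      (h.be (xv (kil i (of j))) (xv (kil i v)) : G) := by
    intro j v
    induction v using FreeGroup.induction_on with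
    | C1 =>
      rw [map_one, xv_one, be_zero_right, commutatorElement_one_right, map_one, map_one]
      rfl
    | of k => exact base j k
    | inv_of k ih =>
      have e : q (cc i ⁅(of j : FreeGroup ι), (of k)⁻¹⁆) =
        (q (cc i ⁅(of j : FreeGroup ι), of k⁆))⁻¹ := cl.inv_right _ _
      show q (cc i ⁅(of j : FreeGroup ι), (of k)⁻¹⁆) = (h.be _ (xv (kil i (of k)⁻¹)) : G)
      rw [e, base, map_inv, xv_inv, be_neg_right]
      rfl
    | mul a b ha hb =>
      have e : q (cc i ⁅(of j : FreeGroup ι), a * b⁆) =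
        q (cc i ⁅(of j : FreeGroup ι), a⁆) * q (cc i ⁅(of j : FreeGroup ι), b⁆) :=
          cl.mul_right _ _ _
      rw [e, ha, hb, map_mul, xv_mul, be_add_right]
      rfl
  induction u using FreeGroup.induction_on with
  | C1 =>
    rw [map_one, xv_one, be_zero_left, commutatorElement_one_left, map_one, map_one]
    rfl
  | of k => exact h1 k v
  | inv_of k ih =>
    have e : q (cc i ⁅(of k : FreeGroup ι)⁻¹, v⁆) =
      (q (cc i ⁅(of k : FreeGroup ι), v⁆))⁻¹ := cl.inv_left _ _
    show q (cc i ⁅(of k : FreeGroup ι)⁻¹, v⁆) = (h.be (xv (kil i (of k)⁻¹)) _ : G)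
    rw [e, h1, map_inv, xv_inv, be_neg_left]
    rfl
  | mul a b ha hb =>
    have e : q (cc i ⁅a * b, v⁆) = q (cc i ⁅a, v⁆) * q (cc i ⁅b, v⁆) := cl.mul_left _ _ _
    rw [e, ha, hb, map_mul, xv_mul, be_add_left]
    rfl

/-- The automorphisms acting on the form through the abelianisation. -/
def Eq1 (h : K3 q) (g : MulAut (FreeGroup ι)) : Prop :=
  ∀ u v : ι → ℤ, q g * (h.be u v : G) * (q g)⁻¹ = (h.be (ac g u) (ac g v) : G)

lemma ac_add (g : MulAut (FreeGroup ι)) (u v : ι → ℤ) : ac g (u + v) = ac g u + ac g v :=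
  Matrix.mulVec_add _ _ _

lemma ac_neg (g : MulAut (FreeGroup ι)) (u : ι → ℤ) : ac g (-u) = - ac g u :=
  Matrix.mulVec_neg _ _

lemma ac_zero (g : MulAut (FreeGroup ι)) : ac g 0 = 0 := Matrix.mulVec_zero _

lemma eq1_of_basis {g : MulAut (FreeGroup ι)} (hg : ∀ j k : ι, q g * h.zz j k * (q g)⁻¹ =
    (h.be (xv (g (of j))) (xv (g (of k))) : G)) : h.Eq1 g := by
  have ind : ∀ (P : (ι → ℤ) → Prop), P 0 → (∀ u v, P u → P v → P (u + v)) → (∀ u, P u → P (-u)) →
      (∀ j, P (Pi.single j 1)) → ∀ u, P u := by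
    intro P h0 ha hn hs u
    obtain ⟨w, rfl⟩ : ∃ w : FreeGroup ι, xv w = u := by
      refine ⟨((Finset.univ : Finset ι).toList.map fun j => of j ^ (u j)).prod, ?_⟩
      have hl : ∀ l : List ι, xv ((l.map fun j => (of j : FreeGroup ι) ^ (u j)).prod) =
          (l.map fun j => u j • (Pi.single j 1 : ι → ℤ)).sum := by
        intro l
        induction l with
        | nil => simp [xv_one]
        | cons a l ih => simp [xv_mul, xv_zpow, ih, xv_of]
      rw [hl, Finset.sum_map_toList]
      funext k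
      rw [Finset.sum_apply, Finset.sum_eq_single k]
      · simp
      · intro b _ hb
        simp [Pi.single_apply, Ne.symm hb]
      · intro hk; exact absurd (Finset.mem_univ _) hk
    induction w using FreeGroup.induction_on with
    | C1 => rw [xv_one]; exact h0
    | of k => show P (xv (of k)); rw [xv_of]; exact hs k
    | inv_of k ih => show P (xv (of k)⁻¹); rw [xv_inv, xv_of]; exact hn _ (hs k)
    | mul a b ha' hb' => rw [xv_mul]; exact ha _ _ ha' hb'
  have hcm : ∀ a b : G, q g * (a * b) * (q g)⁻¹ = (q g * a * (q g)⁻¹) * (q g * b * (q g)⁻¹) := by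
    intro a b; group
  have hci : ∀ a : G, q g * a⁻¹ * (q g)⁻¹ = (q g * a * (q g)⁻¹)⁻¹ := by intro a; group
  have h1 : ∀ j v, q g * (h.be (Pi.single j 1) v : G) * (q g)⁻¹ =
      (h.be (ac g (Pi.single j 1)) (ac g v) : G) := by
    intro j
    apply ind
    · rw [be_zero_right, ac_zero, be_zero_right]; simp
    · intro u v hu hv
      rw [be_add_right, ac_add, be_add_right]
      push_cast
      rw [hcm, hu, hv]
    · intro u hu
      rw [be_neg_right, ac_neg, be_neg_right]
      push_cast
      rw [hci, hu]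
    · intro k
      rw [be_single, ac_single, ac_single]
      exact hg j k
  intro u v
  refine ind (fun u => q g * (h.be u v : G) * (q g)⁻¹ = (h.be (ac g u) (ac g v) : G)) ?_ ?_ ?_
    (fun j => h1 j v) u
  · rw [be_zero_left, ac_zero, be_zero_left]; simp
  · intro u v hu hv
    rw [be_add_left, ac_add, be_add_left]
    push_cast
    rw [hcm, hu, hv]
  · intro u hu
    rw [be_neg_left, ac_neg, be_neg_left]
    push_cast
    rw [hci, hu]

end K3

end

end Pool.Agent.H12.CSP
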