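import Pool.Agent.H12.CSP.T2

set_option autoImplicit false
set_option linter.unusedSectionVars false
set_option linter.unusedSimpArgs false
set_option linter.unusedVariables false

/-! The action on the central subgroup and the order of the central elements. -/

namespace Pool.Agent.H12.CSP

open Pool.Agent.Helper460_OutF Pool.Agent.Helper460_CSP
open FreeGroup (of)
open Pool.Agent.Helper156.OF (SP toAut toAut_gl gl nv gl_nv gl_true Lt SP.map_nv)
open scoped commutatorElement

variable {ι : Type} [DecidableEq ι] [Fintype ι] [LinearOrder ι]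

section

variable {G : Type} [Group G] {q : MulAut (FreeGroup ι) →* G}

namespace K3

variable (h : K3 q)

/-- The subgroup of the automorphisms with the equivariance property. -/
def EqS (h : K3 q) : Subgroup (MulAut (FreeGroup ι)) where
  carrier := {g | h.Eq1 g}
  mul_mem' := by
    intro a b ha hb u v
    have e : q (a * b) * (h.be u v : G) * (q (a * b))⁻¹ =
        q a * (q b * (h.be u v : G) * (q b)⁻¹) * (q a)⁻¹ := by
      rw [map_mul]; group
    rw [e, hb, ha, ac_mul, ac_mul]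
  one_mem' := by
    intro u v
    rw [ac_one, ac_one, map_one]; simp
  inv_mem' := by
    intro a ha u v
    have e := ha (ac a⁻¹ u) (ac a⁻¹ v)
    rw [← ac_mul, ← ac_mul, mul_inv_cancel, ac_one, ac_one] at e
    rw [← e, map_inv]
    group

lemma eq1_cc (p : ι) (w : FreeGroup ι) : h.Eq1 (cc p w) := by
  apply h.eq1_of_basis
  intro j k
  have h1 : ∀ j, xv (cc p w (of j)) = Pi.single j 1 := fun j => by
    rw [xv_eq_iff.2 (cc_mem_IA p w (of j)), xv_of]
  rw [h1, h1, be_single, ← (h.zz_cc j k p w).eq, mul_inv_cancel_right]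

lemma eq1_rr_of (p r : ι) : h.Eq1 (rr p (of r)) := by
  by_cases hpr : p = r
  · subst hpr
    rw [rr_of_self]
    exact h.EqS.one_mem
  apply h.eq1_of_basis
  intro j k
  by_cases hp : p = j ∨ p = k
  · obtain ⟨i, h1, h2, h3⟩ := h.ex j k r
    have hip : i ≠ p := by
      rcases hp with hp | hp
      · rw [hp]; exact h1
      · rw [hp]; exact h2
    have hP : Pres i (rr p (of r)) := pres_rr hip (kil_ne h3.symm)
    have e := conj_cc (q := q) hP ⁅(of j : FreeGroup ι), of k⁆
    rw [map_commutatorElement (rr p (of r)), h.zz_eq h1 h2, h.cc_be, hP.kil, hP.kil,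
      kil_ne h1.symm, kil_ne h2.symm] at e
    exact e
  · push Not at hp
    rw [rr_ne (Ne.symm hp.1), rr_ne (Ne.symm hp.2), xv_of, xv_of, be_single, ← h.zz_eq hp.1 hp.2,
      ← (h.cc_rr p (of j) (of k) (of r)).eq, mul_inv_cancel_right]

lemma eq1_sp (σ : SP ι) : h.Eq1 (toAut σ) := by
  apply h.eq1_of_basis
  intro j k
  obtain ⟨i, h1, h2, -⟩ := h.ex j k k
  have e := sp_cc (q := q) σ i ⁅(of j : FreeGroup ι), of k⁆
  rw [map_commutatorElement (toAut σ), h.cc_be (spi σ i), sp_kil, sp_kil, kil_ne h1.symm,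
    kil_ne h2.symm, h.zz_eq h1 h2] at e
  exact e

lemma eq1 (g : MulAut (FreeGroup ι)) : h.Eq1 g := by
  have hrr : ∀ i w, rr i w ∈ h.EqS := by
    intro i w
    induction w using FreeGroup.induction_on with
    | C1 => rw [map_one]; exact one_mem _
    | of j => exact h.eq1_rr_of i j
    | inv_of j ih => rw [map_inv]; exact inv_mem (h.eq1_rr_of i j)
    | mul a b ha hb => rw [map_mul]; exact mul_mem ha hb
  have h1 : h.EqS = ⊤ := by
    apply gen_top
    · exact h.eq1_sp
    · exact hrr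
    · intro i w
      have e : ll i w = cc i w * (rr i w)⁻¹ := by rw [cc_eq, mul_inv_cancel_right]
      rw [e]
      exact mul_mem (h.eq1_cc i w) (inv_mem (hrr i w))
  have h2 : g ∈ h.EqS := by rw [h1]; trivial
  exact h2

lemma conj_zz (g : MulAut (FreeGroup ι)) (j k : ι) : q g * h.zz j k * (q g)⁻¹ =
    (h.be (xv (g (of j))) (xv (g (of k))) : G) := by
  rw [← h.be_single, h.eq1 g, ac_single, ac_single]

lemma zz_IA {α : MulAut (FreeGroup ι)} (hα : α ∈ IA (FreeGroup ι)) (j k : ι) :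
    Commute (h.zz j k) (q α) := by
  have e := h.conj_zz α j k
  rw [xv_eq_iff.2 (hα (of j)), xv_eq_iff.2 (hα (of k)), xv_of, xv_of, be_single] at e
  exact (commute_of_conj e).symm

lemma Zs_IA {α : MulAut (FreeGroup ι)} (hα : α ∈ IA (FreeGroup ι)) {b : G} (hb : b ∈ h.Zs) :
    Commute b (q α) := by
  induction hb using Subgroup.closure_induction with
  | mem x hx => obtain ⟨⟨l, m⟩, rfl⟩ := hx; exact h.zz_IA hα l m
  | one => exact Commute.one_left _
  | mul x y _ _ hx hy => exact hx.mul_left hy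
  | inv x _ hx => exact hx.inv_left

lemma Zs_conj (g : MulAut (FreeGroup ι)) {b : G} (hb : b ∈ h.Zs) :
    q g * b * (q g)⁻¹ ∈ h.Zs := by
  induction hb using Subgroup.closure_induction with
  | mem x hx => obtain ⟨⟨l, m⟩, rfl⟩ := hx; rw [h.conj_zz]; exact Subtype.mem _
  | one => simp
  | mul x y _ _ hx hy =>
    have : q g * (x * y) * (q g)⁻¹ = (q g * x * (q g)⁻¹) * (q g * y * (q g)⁻¹) := by group
    rw [this]; exact mul_mem hx hy
  | inv x _ hx =>
    have : q g * x⁻¹ * (q g)⁻¹ = (q g * x * (q g)⁻¹)⁻¹ := by group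
    rw [this]; exact inv_mem hx

/-- The commutator of `cc k x_j` and `cc j x_k`. -/
lemma rel1 {j k : ι} (hjk : j ≠ k) : q (cc k (of j)) * q (cc j (of k)) =
    h.zz j k ^ (Fintype.card ι - 2) * (q (cc j (of k)) * q (cc k (of j))) := by
  set l : List ι := ((Finset.univ.erase k).erase j).toList with hl0
  have hl : l.Nodup := Finset.nodup_toList _
  have hm : ∀ m, m ∈ l ↔ m ≠ k ∧ m ≠ j := by
    intro m
    simp [hl0, and_comm]
  have hlen : l.length = Fintype.card ι - 2 := by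
    rw [hl0, Finset.length_toList, Finset.card_erase_of_mem, Finset.card_erase_of_mem,
      Finset.card_univ]
    · rfl
    · exact Finset.mem_univ _
    · exact Finset.mem_erase.2 ⟨hjk, Finset.mem_univ _⟩
  have e := congrArg q (idB hjk.symm l hl hm _ rfl)
  have hg : (of j : FreeGroup ι)⁻¹ * (of k)⁻¹ * of j * of k = ⁅(of j : FreeGroup ι)⁻¹, (of k)⁻¹⁆ := by
    rw [commutatorElement_def, inv_inv, inv_inv]
  have hz : ∀ m ∈ l, q (cc m ((of j : FreeGroup ι)⁻¹ * (of k)⁻¹ * of j * of k)) = h.zz j k := by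
    intro m hml
    have h1 := (hm m).1 hml
    rw [hg]
    have e1 : q (cc m ⁅(of j : FreeGroup ι)⁻¹, (of k)⁻¹⁆) =
      (q (cc m ⁅(of j : FreeGroup ι), (of k)⁻¹⁆))⁻¹ := (h.cl_cc m).inv_left _ _
    have e2 : q (cc m ⁅(of j : FreeGroup ι), (of k)⁻¹⁆) =
      (q (cc m ⁅(of j : FreeGroup ι), of k⁆))⁻¹ := (h.cl_cc m).inv_right _ _
    rw [e1, e2, inv_inv, h.zz_eq h1.2 h1.1]
  have hprod : q (l.map (fun m => cc m ((of j : FreeGroup ι)⁻¹ * (of k)⁻¹ * of j * of k))).prod =
      h.zz j k ^ (Fintype.card ι - 2) := by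
    rw [map_list_prod, List.map_map, ← hlen]
    have : ∀ l' : List ι, (∀ m ∈ l', q (cc m ((of j : FreeGroup ι)⁻¹ * (of k)⁻¹ * of j * of k)) =
        h.zz j k) → (List.map (⇑q ∘ fun m => cc m ((of j : FreeGroup ι)⁻¹ * (of k)⁻¹ * of j * of k))
          l').prod = h.zz j k ^ l'.length := by
      intro l' hl'
      induction l' with
      | nil => simp
      | cons a l' ih =>
        rw [List.map_cons, List.prod_cons, List.length_cons, pow_succ',
          ih (fun m hm => hl' m (List.mem_cons_of_mem _ hm))]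
        congr 1
        exact hl' a List.mem_cons_self
    exact this l hz
  rw [map_mul q (cc k (of j)), map_mul q (MulAut.conj _ * _), map_mul q (MulAut.conj _),
    map_mul q (cc j (of k)), hprod, h.inn, one_mul] at e
  exact e

lemma rel_bc {i j k : ι} (hij : i ≠ j) (hik : i ≠ k) (hjk : j ≠ k) :
    q (cc k (of i)) * q (cc j (of k)) =
      (h.zz i k)⁻¹ * (q (cc j (of k)) * q (cc k (of i))) := by
  -- McCool's relation
  have e : (cc k (of i) * cc j (of i)) * cc j (of k) = cc j (of k) * (cc k (of i) * cc j (of i)) := by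
    apply aut_ext
    intro l
    simp only [MulAut.mul_apply]
    by_cases h1 : l = j
    · subst h1
      simp only [cc_self, cc_ne hjk.symm, cc_ne hjk, cc_ne hij, cc_ne hik, map_mul, map_inv, kil_ne hij,
        kil_ne hik, kil_ne hjk.symm]
      group
    · by_cases h2 : l = k
      · subst h2
        simp only [cc_self, cc_ne hjk.symm, cc_ne hjk, cc_ne hij, cc_ne hik, map_mul, map_inv,
          kil_ne hij, kil_ne hik, kil_ne hjk.symm]
      · simp only [cc_ne h1, cc_ne h2]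
  have e2 := congrArg q e
  simp only [map_mul] at e2
  -- the commutator of `cc j x_i` and `cc j x_k`
  have e3 : q (cc j (of i)) * q (cc j (of k)) = h.zz i k * (q (cc j (of k)) * q (cc j (of i))) := by
    rw [← h.zz_eq hij.symm hjk, map_commutatorElement, map_commutatorElement,
      commutatorElement_def]
    group
  have c1 := h.zz_cc i k k (of i)
  have c2 := h.zz_cc i k j (of k)
  set b := q (cc k (of i))
  set c := q (cc j (of k))
  set d := q (cc j (of i))
  set z := h.zz i k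
  have e4 : b * (z * (c * d)) = c * (b * d) := by rw [← e3, ← mul_assoc]; exact e2
  have e5 : z * (b * c) * d = c * b * d := by
    calc z * (b * c) * d = (z * b) * (c * d) := by group
      _ = (b * z) * (c * d) := by rw [c1.eq]
      _ = b * (z * (c * d)) := by group
      _ = c * (b * d) := e4
      _ = c * b * d := by group
  have e6 := mul_right_cancel e5
  rw [eq_inv_mul_iff_mul_eq]
  exact e6

lemma rel_am {i j k : ι} (hij : i ≠ j) (hik : i ≠ k) (hjk : j ≠ k) :
    q (cc k (of j)) * q (rr j ⁅(of k : FreeGroup ι)⁻¹, of i⁆) * (q (cc k (of j)))⁻¹ =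
      h.zz k i * h.zz k i * q (rr j ⁅(of k : FreeGroup ι)⁻¹, of i⁆) := by
  have f1 : cc k (of j) * rr j (of i) =
      cc k (of j * (of i)⁻¹ * (of j)⁻¹) * rr j (of i) * cc k (of j) := by
    have hv : kil k (of j * (of i)⁻¹ * (of j)⁻¹) = of j * (of i)⁻¹ * (of j)⁻¹ := by
      rw [map_mul, map_mul, map_inv, map_inv, kil_ne hjk, kil_ne hik]
    have g1 : cc k (of j * (of i)⁻¹ * (of j)⁻¹) (of k) =
        (of j * (of i)⁻¹ * (of j)⁻¹)⁻¹ * of k * (of j * (of i)⁻¹ * (of j)⁻¹) := by
      rw [cc_self, hv]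
    have g2 : ∀ l, l ≠ k → cc k (of j * (of i)⁻¹ * (of j)⁻¹) (of l) = of l :=
      fun l hl => cc_ne hl _
    generalize cc k (of j * (of i)⁻¹ * (of j)⁻¹) = C at g1 g2
    apply aut_ext
    intro l
    simp only [MulAut.mul_apply]
    by_cases h1 : l = j
    · subst h1
      rw [cc_ne hjk, rr_self, kil_ne hij, map_mul, map_mul, cc_ne hjk, cc_ne hik, g2 _ hjk,
        g2 _ hik]
    · by_cases h2 : l = k
      · subst h2
        have hR1 : rr j (of i) (of j) = of j * of i := by rw [rr_self, kil_ne hij]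
        have hR2 : rr j (of i) (of l) = of l := rr_ne h1 _
        rw [rr_ne h1, cc_self, kil_ne hjk]
        simp only [map_mul, map_inv, hR1, hR2, g1, g2 _ hjk, g2 _ hik]
        group
      · rw [rr_ne h1, cc_ne h2, rr_ne h1, g2 _ h2]
  have f2 : cc k (of j) * rr j (of k) = (ll j (of k))⁻¹ * cc k (of j) := by
    rw [eq_inv_mul_iff_mul_eq]
    apply aut_ext
    intro l
    simp only [MulAut.mul_apply]
    by_cases h1 : l = j
    · subst h1
      simp only [rr_self, kil_ne hjk.symm, map_mul, cc_ne hjk, cc_self, kil_ne hjk, ll_self,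
        ll_ne hjk.symm, map_inv]
      group
    · by_cases h2 : l = k
      · subst h2
        simp only [rr_ne h1, kil_ne hjk.symm, map_mul, cc_ne hjk, cc_self, kil_ne hjk, ll_self,
          ll_ne h1, map_inv]
        group
      · rw [rr_ne h1, cc_ne h2, ll_ne h1]
  have E1 := congrArg q f1
  have E2 := congrArg q f2
  simp only [map_mul q, map_inv q] at E1 E2
  have hy : q (cc k (of j * (of i)⁻¹ * (of j)⁻¹)) = (h.zz j i)⁻¹ * (q (cc k (of i)))⁻¹ := by
    have e1 : (of j * (of i)⁻¹ * (of j)⁻¹ : FreeGroup ι) = ⁅(of j : FreeGroup ι), (of i)⁻¹⁆ * (of i)⁻¹ := by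
      rw [commutatorElement_def]; group
    have e2 : q (cc k ⁅(of j : FreeGroup ι), (of i)⁻¹⁆) = (q (cc k ⁅(of j : FreeGroup ι), of i⁆))⁻¹ :=
      (h.cl_cc k).inv_right _ _
    rw [e1, map_mul, map_mul, e2, h.zz_eq hjk.symm hik.symm, map_inv, map_inv]
  rw [hy] at E1
  have hLb : (q (cc k (of i)))⁻¹ * q (ll j (of k)) * q (cc k (of i)) =
      q (ll j (of i * of k * (of i)⁻¹)) := by
    have hP : Pres j (cc k (of i)⁻¹) := pres_cc hjk (by rw [map_inv, kil_ne hij])
    have e := conj_ll (q := q) hP (of k)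
    rw [cc_self, map_inv (kil k), kil_ne hik, inv_inv, map_inv (cc k), map_inv q, inv_inv] at e
    exact e
  have hD : q (ll j (of k)) * (q (ll j (of i * of k * (of i)⁻¹)))⁻¹ = q (ll j ⁅(of k : FreeGroup ι), of i⁆) := by
    have e : (of k * (of i * of k * (of i)⁻¹)⁻¹ : FreeGroup ι) =
        of k * of i * (of k)⁻¹ * (of i)⁻¹ := by group
    rw [← map_inv, ← map_inv, ← map_mul, ← map_mul, commutatorElement_def, e]
  have hz : q (ll j (of k)) * h.zz j i * (q (ll j (of k)))⁻¹ = h.zz j i * (h.zz k i)⁻¹ := by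
    rw [h.conj_zz, ll_self, kil_ne hjk.symm, ll_ne hij, xv_mul, xv_inv, xv_of, xv_of, xv_of,
      be_add_left, be_neg_left]
    push_cast
    rw [be_single, be_single]
    exact (h.zz_zz k i j i).inv_left.eq
  have hLR : Commute (q (ll j (of k))) (q (rr j (of i))) := ll_rr_commute j _ _
  have hDz : Commute (h.zz j i) (q (ll j ⁅(of k : FreeGroup ι), of i⁆)) := by
    apply h.zz_IA
    have e : ll j ⁅(of k : FreeGroup ι), of i⁆ =
        cc j ⁅(of k : FreeGroup ι), of i⁆ * (rr j ⁅(of k : FreeGroup ι), of i⁆)⁻¹ := by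
      rw [cc_eq, mul_inv_cancel_right]
    rw [e]
    exact mul_mem (cc_mem_IA _ _) (inv_mem (rr_comm_mem_IA _ _ _))
  have hDm : q (ll j ⁅(of k : FreeGroup ι), of i⁆) =
      h.zz k i * q (rr j ⁅(of k : FreeGroup ι)⁻¹, of i⁆) := by
    have e1 : q (rr j ⁅(of k : FreeGroup ι)⁻¹, of i⁆) = (q (rr j ⁅(of k : FreeGroup ι), of i⁆))⁻¹ :=
      (h.cl_rr j).inv_left _ _
    rw [e1, ← h.zz_eq hjk hij.symm, cc_eq, map_mul, mul_inv_cancel_right]
  have hm : q (rr j ⁅(of k : FreeGroup ι)⁻¹, of i⁆) =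
      (q (rr j (of k)))⁻¹ * q (rr j (of i)) * q (rr j (of k)) * (q (rr j (of i)))⁻¹ := by
    rw [map_commutatorElement, map_commutatorElement, commutatorElement_def, map_inv, map_inv,
      inv_inv]
  have hzz : Commute (h.zz k i) (h.zz j i) := h.zz_zz _ _ _ _
  rw [hm] 
  generalize q (cc k (of i)) = b at *
  generalize q (cc k (of j)) = a at *
  generalize q (rr j (of i)) = R at *
  generalize q (rr j (of k)) = Rk at *
  generalize hD' : q (ll j ⁅(of k : FreeGroup ι), of i⁆) = D at *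
  generalize q (ll j (of i * of k * (of i)⁻¹)) = L' at *
  generalize q (ll j (of k)) = L at *
  generalize q (rr j ⁅(of k : FreeGroup ι)⁻¹, of i⁆) = m at *
  generalize h.zz j i = z at *
  generalize h.zz k i = z' at *
  -- `a R a⁻¹ = y R`, `a Rk a⁻¹ = L⁻¹`
  have A1 : a * R * a⁻¹ = z⁻¹ * b⁻¹ * R := by rw [E1]; group
  have A2 : a * Rk * a⁻¹ = L⁻¹ := by rw [E2]; group
  have A3 : a * (Rk⁻¹ * R * Rk * R⁻¹) * a⁻¹ =
      (a * Rk * a⁻¹)⁻¹ * (a * R * a⁻¹) * (a * Rk * a⁻¹) * (a * R * a⁻¹)⁻¹ := by group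
  rw [A3, A1, A2]
  have A4 : L * b⁻¹ * L⁻¹ * b = D := by
    rw [← hD, ← hLb]; group
  have A5 : L⁻¹⁻¹ * (z⁻¹ * b⁻¹ * R) * L⁻¹ * (z⁻¹ * b⁻¹ * R)⁻¹ =
      (L * z * L⁻¹)⁻¹ * (L * b⁻¹ * (R * L⁻¹) * R⁻¹ * b) * z := by group
  rw [A5, ← (hLR.inv_left).eq]
  have A6 : (L * b⁻¹ * (L⁻¹ * R) * R⁻¹ * b) = L * b⁻¹ * L⁻¹ * b := by group
  rw [A6, A4, hz, mul_inv_rev, inv_inv, mul_assoc, ← hDz.eq, ← hm, hDm]
  calc z' * z⁻¹ * (z * (z' * m)) = z' * z' * m := by group

/-- The order of the central elements divides `n + 1`. -/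
lemma zz_pow (i k : ι) : h.zz i k ^ (Fintype.card ι + 1) = 1 := by
  by_cases hik : i = k
  · subst hik; rw [zz_self, one_pow]
  obtain ⟨j, hji, hjk, -⟩ := h.ex i k k
  have hij : i ≠ j := hji.symm
  have r1 := h.rel1 hjk
  have r2 := h.rel_bc hij hik hjk
  have r3 := h.rel_am hij hik hjk
  have e1 : q (rr j (of i)) * q (cc k (of j)) * (q (rr j (of i)))⁻¹ =
      q (cc k (of j)) * q (cc k (of i)) := by
    have hP : Pres k (rr j (of i)) := pres_rr hjk.symm (kil_ne hik)
    rw [conj_cc hP, rr_self, kil_ne hij, map_mul, map_mul]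
  have e2 : q (rr j (of i)) * q (cc j (of k)) * (q (rr j (of i)))⁻¹ =
      q (cc j (of k)) * q (rr j ⁅(of k : FreeGroup ι)⁻¹, of i⁆) := by
    rw [← map_inv, ← map_mul, ← map_mul, ← map_mul]
    congr 1
    rw [← map_inv]
    show lr j (1, of i) * lr j (of k, of k) * lr j (1, (of i)⁻¹) =
      lr j (of k, of k) * lr j (1, ⁅(of k : FreeGroup ι)⁻¹, of i⁆)
    rw [← map_mul, ← map_mul, ← map_mul, commutatorElement_def]
    congr 1
    ext <;> simp <;> group
  have e3 : q (rr j (of i)) * h.zz j k * (q (rr j (of i)))⁻¹ = h.zz j k * h.zz i k := by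
    rw [h.conj_zz, rr_self, kil_ne hij, rr_ne hjk.symm, xv_mul, xv_of, xv_of, xv_of, be_add_left]
    push_cast
    rw [be_single, be_single]
  have c1 : Commute (q (cc k (of i))) (q (rr j ⁅(of k : FreeGroup ι)⁻¹, of i⁆)) := by
    have hP : Pres j (cc k (of i)) := pres_cc hjk (kil_ne hij)
    have e := conj_rr (q := q) hP ⁅(of k : FreeGroup ι)⁻¹, of i⁆
    rw [map_commutatorElement (cc k (of i)), map_inv, cc_self, cc_ne hik, kil_ne hik] at e
    have e4 : q (rr j ⁅((of i : FreeGroup ι)⁻¹ * of k * of i)⁻¹, of i⁆) =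
      (q (rr j ⁅((of i : FreeGroup ι)⁻¹ * of k * of i), of i⁆))⁻¹ := (h.cl_rr j).inv_left _ _
    have e5 : q (rr j ⁅((of i : FreeGroup ι)⁻¹ * of k * of i), of i⁆) =
      q (rr j ⁅(of k : FreeGroup ι), of i⁆) := (h.cl_rr j).conj_left _ _ _
    have e6 : q (rr j ⁅(of k : FreeGroup ι)⁻¹, of i⁆) = (q (rr j ⁅(of k : FreeGroup ι), of i⁆))⁻¹ :=
      (h.cl_rr j).inv_left _ _
    rw [e4, e5, ← e6] at e
    exact commute_of_conj e
  have c2 : Commute (q (cc j (of k))) (q (rr j ⁅(of k : FreeGroup ι)⁻¹, of i⁆)) := by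
    rw [cc_eq, map_mul]
    exact (ll_rr_commute j _ _).mul_left (h.rc_rr j _ _ _).symm
  have zc : ∀ p w a b, Commute (h.zz a b) (q (cc p w)) := fun p w a b => h.zz_cc a b p w
  have zr : ∀ a b, Commute (h.zz a b) (q (rr j ⁅(of k : FreeGroup ι)⁻¹, of i⁆)) :=
    fun a b => h.zz_IA (rr_comm_mem_IA _ _ _) a b
  have za1 := zc k (of j)
  have zb1 := zc k (of i)
  have zc1 := zc j (of k)
  have sw := h.zz_swap i k
  have zz1 := h.zz_zz i k j k
  obtain ⟨N, hN⟩ : ∃ N, Fintype.card ι = N + 2 := by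
    have : 2 ≤ Fintype.card ι := by
      have h2 := Fintype.one_lt_card_iff.2 ⟨i, k, hik⟩
      omega
    exact ⟨Fintype.card ι - 2, by omega⟩
  rw [hN] at r1 ⊢
  rw [show N + 2 - 2 = N by omega] at r1
  rw [sw] at r3
  generalize q (rr j (of i)) = R at *
  have zaa := za1 j k
  have zai := za1 i k
  have zbi := zb1 i k
  have zbj := zb1 j k
  have zcc := zc1 j k
  have zci := zc1 i k
  have zmi := zr i k
  have zmj := zr j k
  generalize q (rr j ⁅(of k : FreeGroup ι)⁻¹, of i⁆) = m at *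
  generalize q (cc k (of j)) = a at *
  generalize q (cc k (of i)) = b at *
  generalize q (cc j (of k)) = c at *
  generalize h.zz i k = z at *
  generalize h.zz j k = y at *
  have hzinv : ∀ {x}, Commute z x → Commute z⁻¹ x := fun hx => hx.inv_left
  -- conjugate the relation
  have k1 : (a * b) * (c * m) = (y * z) ^ N * ((c * m) * (a * b)) := by
    have t1 : R * (a * c) * R⁻¹ = R * (y ^ N * (c * a)) * R⁻¹ := by rw [r1]
    have t2 : R * (a * c) * R⁻¹ = (R * a * R⁻¹) * (R * c * R⁻¹) := by group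
    have t3 : R * (y ^ N * (c * a)) * R⁻¹ =
        (R * y * R⁻¹) ^ N * ((R * c * R⁻¹) * (R * a * R⁻¹)) := by
      rw [conj_pow]; group
    rw [t2, t3, e1, e2, e3] at t1
    exact t1
  have k2 : (a * b) * (c * m) = (z⁻¹ * (y ^ N * (z⁻¹ * z⁻¹))) * ((c * m) * (a * b)) := by
    have am : a * m = z⁻¹ * z⁻¹ * (m * a) := by
      have := congrArg (· * a) r3
      simp only [inv_mul_cancel_right] at this
      rw [this]; group
    calc (a * b) * (c * m) = a * (b * c) * m := by group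
      _ = a * (z⁻¹ * (c * b)) * m := by rw [r2]
      _ = (a * z⁻¹) * c * (b * m) := by group
      _ = (z⁻¹ * a) * c * (m * b) := by rw [(hzinv zai).eq, c1.eq]
      _ = z⁻¹ * (a * c) * m * b := by group
      _ = z⁻¹ * (y ^ N * (c * a)) * m * b := by rw [r1]
      _ = z⁻¹ * y ^ N * c * (a * m) * b := by group
      _ = z⁻¹ * y ^ N * c * (z⁻¹ * z⁻¹ * (m * a)) * b := by rw [am]
      _ = z⁻¹ * y ^ N * (c * (z⁻¹ * z⁻¹)) * (m * a) * b := by group
      _ = z⁻¹ * y ^ N * ((z⁻¹ * z⁻¹) * c) * (m * a) * b := by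
        rw [((hzinv zci).mul_left (hzinv zci)).eq]
      _ = _ := by group
  have k3 := mul_right_cancel (k1.symm.trans k2)
  rw [zz1.symm.mul_pow] at k3
  have k4 : z⁻¹ * (y ^ N * (z⁻¹ * z⁻¹)) = y ^ N * (z⁻¹ * (z⁻¹ * z⁻¹)) := by
    have : Commute z⁻¹ (y ^ N) := (zz1.pow_right N).inv_left
    rw [← mul_assoc, this.eq, mul_assoc]
  rw [k4] at k3
  have k5 := mul_left_cancel k3
  rw [show N + 2 + 1 = N + 3 by omega, pow_add, k5]
  group

end K3

end

end Pool.Agent.H12.CSP
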