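import Pool.Agent.H12.CSP.T3

set_option autoImplicit false
set_option linter.unusedSectionVars false
set_option linter.unusedSimpArgs false
set_option linter.unusedVariables false
set_option linter.unnecessarySeqFocus false

/-! The trace. -/

namespace Pool.Agent.H12.CSP

open Pool.Agent.Helper460_OutF Pool.Agent.Helper460_CSP
open FreeGroup (of)
open Pool.Agent.Helper156.OF (SP toAut toAut_gl gl nv gl_nv gl_true Lt SP.map_nv)
open scoped commutatorElement

/-- The group of the unitriangular integral matrices of size four. -/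
@[ext] structure U4 where
  a : ℤ
  b : ℤ
  c : ℤ
  d : ℤ
  e : ℤ
  f : ℤ

namespace U4

instance : Mul U4 := ⟨fun x y => ⟨x.a + y.a, x.b + y.b, x.c + y.c, x.d + y.d + x.a * y.b,
  x.e + y.e + x.b * y.c, x.f + y.f + x.a * y.e + x.d * y.c⟩⟩

instance : One U4 := ⟨⟨0, 0, 0, 0, 0, 0⟩⟩

instance : Inv U4 := ⟨fun x => ⟨-x.a, -x.b, -x.c, -x.d + x.a * x.b, -x.e + x.b * x.c,
  -x.f + x.a * x.e + x.d * x.c - x.a * x.b * x.c⟩⟩

@[simp] lemma mul_a (x y : U4) : (x * y).a = x.a + y.a := rfl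
@[simp] lemma mul_b (x y : U4) : (x * y).b = x.b + y.b := rfl
@[simp] lemma mul_c (x y : U4) : (x * y).c = x.c + y.c := rfl
@[simp] lemma mul_d (x y : U4) : (x * y).d = x.d + y.d + x.a * y.b := rfl
@[simp] lemma mul_e (x y : U4) : (x * y).e = x.e + y.e + x.b * y.c := rfl
@[simp] lemma mul_f (x y : U4) : (x * y).f = x.f + y.f + x.a * y.e + x.d * y.c := rfl
@[simp] lemma one_a : (1 : U4).a = 0 := rfl
@[simp] lemma one_b : (1 : U4).b = 0 := rfl
@[simp] lemma one_c : (1 : U4).c = 0 := rfl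
@[simp] lemma one_d : (1 : U4).d = 0 := rfl
@[simp] lemma one_e : (1 : U4).e = 0 := rfl
@[simp] lemma one_f : (1 : U4).f = 0 := rfl
@[simp] lemma inv_a (x : U4) : (x⁻¹).a = -x.a := rfl
@[simp] lemma inv_b (x : U4) : (x⁻¹).b = -x.b := rfl
@[simp] lemma inv_c (x : U4) : (x⁻¹).c = -x.c := rfl
@[simp] lemma inv_d (x : U4) : (x⁻¹).d = -x.d + x.a * x.b := rfl
@[simp] lemma inv_e (x : U4) : (x⁻¹).e = -x.e + x.b * x.c := rfl
@[simp] lemma inv_f (x : U4) :
    (x⁻¹).f = -x.f + x.a * x.e + x.d * x.c - x.a * x.b * x.c := rfl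

instance : Group U4 := Group.ofLeftAxioms
  (fun x y z => by ext <;> simp <;> ring)
  (fun x => by ext <;> simp)
  (fun x => by
    ext
    · simp
    · simp
    · simp
    · simp
    · simp
    · simp; ring)

/-- The first projection to the Heisenberg group. -/
def p1 : U4 →* Hs ℤ where
  toFun x := ⟨x.a, x.b, x.d⟩
  map_one' := rfl
  map_mul' x y := by ext <;> simp

/-- The second projection to the Heisenberg group. -/
def p2 : U4 →* Hs ℤ where
  toFun x := ⟨x.b, x.c, x.e⟩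
  map_one' := rfl
  map_mul' x y := by ext <;> simp

/-- Equality outside the corner. -/
def Eqv (x y : U4) : Prop := p1 x = p1 y ∧ p2 x = p2 y

lemma Eqv.mk' {x y : U4} (ha : x.a = y.a) (hb : x.b = y.b) (hc : x.c = y.c) (hd : x.d = y.d)
    (he : x.e = y.e) : Eqv x y := by
  refine ⟨?_, ?_⟩
  · show (⟨x.a, x.b, x.d⟩ : Hs ℤ) = ⟨y.a, y.b, y.d⟩
    rw [ha, hb, hd]
  · show (⟨x.b, x.c, x.e⟩ : Hs ℤ) = ⟨y.b, y.c, y.e⟩
    rw [hb, hc, he]

lemma Eqv.a {x y : U4} (h : Eqv x y) : x.a = y.a := congrArg Hs.a h.1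
lemma Eqv.b {x y : U4} (h : Eqv x y) : x.b = y.b := congrArg Hs.b h.1
lemma Eqv.d {x y : U4} (h : Eqv x y) : x.d = y.d := congrArg Hs.c h.1
lemma Eqv.c {x y : U4} (h : Eqv x y) : x.c = y.c := congrArg Hs.b h.2
lemma Eqv.e {x y : U4} (h : Eqv x y) : x.e = y.e := congrArg Hs.c h.2

/-- The subgroup of the elements with trivial superdiagonal. -/
def Z1 : Subgroup U4 where
  carrier := {x | x.a = 0 ∧ x.b = 0 ∧ x.c = 0}
  mul_mem' := by
    rintro x y ⟨h1, h2, h3⟩ ⟨h4, h5, h6⟩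
    exact ⟨by simp [h1, h4], by simp [h2, h5], by simp [h3, h6]⟩
  one_mem' := ⟨rfl, rfl, rfl⟩
  inv_mem' := by
    rintro x ⟨h1, h2, h3⟩
    exact ⟨by simp [h1], by simp [h2], by simp [h3]⟩

/-- The subgroup of the corner elements. -/
def Z2 : Subgroup U4 where
  carrier := {x | x.a = 0 ∧ x.b = 0 ∧ x.c = 0 ∧ x.d = 0 ∧ x.e = 0}
  mul_mem' := by
    rintro x y ⟨h1, h2, h3, h7, h8⟩ ⟨h4, h5, h6, h9, h10⟩
    exact ⟨by simp [h1, h4], by simp [h2, h5], by simp [h3, h6], by simp [h7, h9, h1],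
      by simp [h8, h10, h2]⟩
  one_mem' := ⟨rfl, rfl, rfl, rfl, rfl⟩
  inv_mem' := by
    rintro x ⟨h1, h2, h3, h4, h5⟩
    exact ⟨by simp [h1], by simp [h2], by simp [h3], by simp [h4, h1], by simp [h5, h2]⟩

lemma comm_Z1 (x y : U4) : ⁅x, y⁆ ∈ Z1 := by
  refine ⟨?_, ?_, ?_⟩ <;> simp [commutatorElement_def]

lemma comm_Z2 {x : U4} (hx : x ∈ Z1) (y : U4) : ⁅x, y⁆ ∈ Z2 := by
  obtain ⟨h1, h2, h3⟩ := hx
  refine ⟨?_, ?_, ?_, ?_, ?_⟩ <;> simp [commutatorElement_def, h1, h2, h3]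

lemma comm_Z3 {x : U4} (hx : x ∈ Z2) (y : U4) : ⁅x, y⁆ = 1 := by
  obtain ⟨h1, h2, h3, h4, h5⟩ := hx
  ext <;> simp [commutatorElement_def, h1, h2, h3, h4, h5] <;> ring

end U4

section lcs

variable {X : Type} [Group X]

lemma lcs_Z1 (f : X →* U4) {x : X} (hx : x ∈ (⊤ : Subgroup X).lowerCentralSeries 1) :
    f x ∈ U4.Z1 := by
  have h1 : (⊤ : Subgroup X).lowerCentralSeries 1 ≤ U4.Z1.comap f := by
    show ⁅(⊤ : Subgroup X).lowerCentralSeries 0, (⊤ : Subgroup X)⁆ ≤ _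
    rw [Subgroup.commutator_le]
    intro u _ v _
    show f ⁅u, v⁆ ∈ U4.Z1
    rw [map_commutatorElement]
    exact U4.comm_Z1 _ _
  exact h1 hx

lemma lcs_Z2 (f : X →* U4) {x : X} (hx : x ∈ (⊤ : Subgroup X).lowerCentralSeries 2) :
    f x ∈ U4.Z2 := by
  have h1 : (⊤ : Subgroup X).lowerCentralSeries 2 ≤ U4.Z2.comap f := by
    show ⁅(⊤ : Subgroup X).lowerCentralSeries 1, (⊤ : Subgroup X)⁆ ≤ _
    rw [Subgroup.commutator_le]
    intro u hu v _
    show f ⁅u, v⁆ ∈ U4.Z2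
    rw [map_commutatorElement]
    exact U4.comm_Z2 (lcs_Z1 f hu) _
  exact h1 hx

lemma lcs_Z3 (f : X →* U4) {x : X} (hx : x ∈ (⊤ : Subgroup X).lowerCentralSeries 3) :
    f x = 1 := by
  have h1 : (⊤ : Subgroup X).lowerCentralSeries 3 ≤ f.ker := by
    show ⁅(⊤ : Subgroup X).lowerCentralSeries 2, (⊤ : Subgroup X)⁆ ≤ _
    rw [Subgroup.commutator_le]
    intro u hu v _
    rw [MonoidHom.mem_ker, map_commutatorElement]
    exact U4.comm_Z3 (lcs_Z2 f hu) _
  exact h1 hx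

end lcs


variable {ι : Type} [DecidableEq ι] [Fintype ι] [LinearOrder ι]

/-- The automorphism does not change the images in the group modulo its centre. -/
def P2 (c : MulAut (FreeGroup ι)) : Prop :=
  ∀ (φ : FreeGroup ι →* U4) (x : FreeGroup ι), U4.Eqv (φ (c x)) (φ x)

lemma P2.mul {c c' : MulAut (FreeGroup ι)} (h : P2 c) (h' : P2 c') : P2 (c * c') := by
  intro φ x
  exact ⟨(h φ (c' x)).1.trans (h' φ x).1, (h φ (c' x)).2.trans (h' φ x).2⟩

lemma P2.inv {c : MulAut (FreeGroup ι)} (h : P2 c) : P2 c⁻¹ := by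
  intro φ x
  have h1 := h φ (c⁻¹ x)
  rw [MulAut.apply_inv_self] at h1
  exact ⟨h1.1.symm, h1.2.symm⟩

lemma P2_one : P2 (1 : MulAut (FreeGroup ι)) := fun φ x => ⟨rfl, rfl⟩

/-- The change of the corner entry. -/
def DD (c : MulAut (FreeGroup ι)) (φ : FreeGroup ι →* U4) (x : FreeGroup ι) : ℤ :=
  (φ (c x)).f - (φ x).f

/-- The change of the corner entry is a homomorphism. -/
def DH {c : MulAut (FreeGroup ι)} (h : P2 c) (φ : FreeGroup ι →* U4) :
    FreeGroup ι →* Multiplicative ℤ where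
  toFun x := Multiplicative.ofAdd (DD c φ x)
  map_one' := by
    unfold DD
    rw [map_one, map_one, sub_self]; rfl
  map_mul' x y := by
    rw [← ofAdd_add]
    congr 1
    unfold DD
    rw [map_mul c, map_mul, map_mul, U4.mul_f, U4.mul_f, (h φ x).a, (h φ y).e, (h φ x).d,
      (h φ y).c]
    ring

lemma DD_xv {c : MulAut (FreeGroup ι)} (h : P2 c) (φ : FreeGroup ι →* U4) {x y : FreeGroup ι}
    (hxy : xv x = xv y) : DD c φ x = DD c φ y := by
  have := hom_xv (DH h φ) hxy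
  exact Multiplicative.ofAdd.injective this

lemma DD_mul' {c : MulAut (FreeGroup ι)} (h : P2 c) (φ : FreeGroup ι →* U4) (x y : FreeGroup ι) :
    DD c φ (x * y) = DD c φ x + DD c φ y := by
  have := map_mul (DH h φ) x y
  exact Multiplicative.ofAdd.injective this

lemma DD_inv' {c : MulAut (FreeGroup ι)} (h : P2 c) (φ : FreeGroup ι →* U4) (x : FreeGroup ι) :
    DD c φ x⁻¹ = - DD c φ x := by
  have := map_inv (DH h φ) x
  exact Multiplicative.ofAdd.injective this

/-- The change of the corner entry for a linear combination. -/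
lemma DD_lin {c : MulAut (FreeGroup ι)} (h : P2 c) (φ : FreeGroup ι →* U4) (x : FreeGroup ι) :
    DD c φ x = ∑ m, xv x m * DD c φ (of m) := by
  induction x using FreeGroup.induction_on with
  | C1 =>
    rw [xv_one]
    simp [DD]
  | of k =>
    show DD c φ (of k) = ∑ m, xv (of k) m * DD c φ (of m)
    rw [xv_of, Finset.sum_eq_single k]
    · rw [Pi.single_eq_same, one_mul]
    · intro b _ hb
      rw [Pi.single_eq_of_ne hb, zero_mul]
    · intro hk; exact absurd (Finset.mem_univ _) hk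
  | inv_of k ih =>
    have ih' : DD c φ (of k) = ∑ m, xv (of k) m * DD c φ (of m) := ih
    show DD c φ (of k)⁻¹ = ∑ m, xv (of k)⁻¹ m * DD c φ (of m)
    rw [DD_inv' h, ih', xv_inv, ← Finset.sum_neg_distrib]
    apply Finset.sum_congr rfl
    intro m _
    simp
  | mul a b ha hb =>
    rw [DD_mul' h, ha, hb, xv_mul, ← Finset.sum_add_distrib]
    apply Finset.sum_congr rfl
    intro m _
    rw [Pi.add_apply]; ring

/-- The basic representations. -/
def rh (l a b : ι) : FreeGroup ι →* U4 :=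
  FreeGroup.lift (fun m => ⟨if m = l then 1 else 0, if m = a then 1 else 0,
    if m = b then 1 else 0, 0, 0, 0⟩)

lemma rh_of (l a b m : ι) : rh l a b (of m) = ⟨if m = l then 1 else 0, if m = a then 1 else 0,
    if m = b then 1 else 0, 0, 0, 0⟩ := by
  unfold rh
  rw [FreeGroup.lift_apply_of]

lemma rh_p1 (l a b : ι) (w : FreeGroup ι) : U4.p1 (rh l a b w) = ph ℤ l a w := by
  have : U4.p1.comp (rh l a b) = ph ℤ l a := by
    ext1 m
    rw [MonoidHom.comp_apply, rh_of, ph_of]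
    rfl
  exact DFunLike.congr_fun this w

lemma rh_p2 (l a b : ι) (w : FreeGroup ι) : U4.p2 (rh l a b w) = ph ℤ a b w := by
  have : U4.p2.comp (rh l a b) = ph ℤ a b := by
    ext1 m
    rw [MonoidHom.comp_apply, rh_of, ph_of]
    rfl
  exact DFunLike.congr_fun this w

lemma rh_a (l a b : ι) (w : FreeGroup ι) : (rh l a b w).a = xv w l := by
  have h1 := congrArg Hs.a (rh_p1 l a b w)
  rw [ph_a] at h1
  exact h1

lemma rh_b (l a b : ι) (w : FreeGroup ι) : (rh l a b w).b = xv w a := by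
  have h1 := congrArg Hs.b (rh_p1 l a b w)
  rw [ph_b] at h1
  exact h1

lemma rh_c (l a b : ι) (w : FreeGroup ι) : (rh l a b w).c = xv w b := by
  have h1 := congrArg Hs.b (rh_p2 l a b w)
  rw [ph_b] at h1
  exact h1

lemma rh_d (l a b : ι) (w : FreeGroup ι) : (rh l a b w).d = (ph ℤ l a w).c :=
  congrArg Hs.c (rh_p1 l a b w)

lemma rh_e (l a b : ι) (w : FreeGroup ι) : (rh l a b w).e = (ph ℤ a b w).c :=
  congrArg Hs.c (rh_p2 l a b w)

/-- The trace. -/
def tr (c : MulAut (FreeGroup ι)) : ι × ι → ℤ := fun p => ∑ l, DD c (rh l p.1 p.2) (of l)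

lemma DD_comp {c c' : MulAut (FreeGroup ι)} (φ : FreeGroup ι →* U4) (x : FreeGroup ι) :
    DD (c * c') φ x = DD c φ (c' x) + DD c' φ x := by
  unfold DD
  rw [MulAut.mul_apply]
  ring

lemma tr_mul {c c' : MulAut (FreeGroup ι)} (h : P2 c) (h' : c' ∈ IA (FreeGroup ι)) :
    tr (c * c') = tr c + tr c' := by
  funext p
  show ∑ l, DD (c * c') (rh l p.1 p.2) (of l) = (∑ l, DD c (rh l p.1 p.2) (of l)) +
    ∑ l, DD c' (rh l p.1 p.2) (of l)
  rw [← Finset.sum_add_distrib]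
  apply Finset.sum_congr rfl
  intro l _
  rw [DD_comp, DD_xv h _ (xv_eq_iff.2 (h' (of l)))]

lemma tr_one : tr (1 : MulAut (FreeGroup ι)) = 0 := by
  funext p
  show ∑ l, DD 1 (rh l p.1 p.2) (of l) = 0
  apply Finset.sum_eq_zero
  intro l _
  unfold DD
  rw [MulAut.one_apply, sub_self]

lemma tr_inv {c : MulAut (FreeGroup ι)} (h : P2 c) (h' : c ∈ IA (FreeGroup ι)) :
    tr c⁻¹ = - tr c := by
  have h1 := tr_mul h (inv_mem h')
  rw [mul_inv_cancel, tr_one] at h1
  exact (neg_eq_of_add_eq_zero_right h1.symm).symm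

lemma DD_conj (g c : MulAut (FreeGroup ι)) (φ : FreeGroup ι →* U4) (x : FreeGroup ι) :
    DD (g * c * g⁻¹) φ x = DD c (φ.comp g.toMonoidHom) (g⁻¹ x) := by
  unfold DD
  show (φ ((g * c * g⁻¹) x)).f - (φ x).f = (φ (g (c (g⁻¹ x)))).f - (φ (g (g⁻¹ x))).f
  rw [MulAut.apply_inv_self, MulAut.mul_apply, MulAut.mul_apply]

lemma P2.conj {c : MulAut (FreeGroup ι)} (h : P2 c) (g : MulAut (FreeGroup ι)) :
    P2 (g * c * g⁻¹) := by
  intro φ x
  have h1 := h (φ.comp g.toMonoidHom) (g⁻¹ x)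
  have h2 : (φ.comp g.toMonoidHom) (g⁻¹ x) = φ x := by
    show φ (g (g⁻¹ x)) = φ x
    rw [MulAut.apply_inv_self]
  rw [h2] at h1
  exact h1

/-- The conjugate of an element by an element with trivial superdiagonal. -/
lemma U4.conj_eq {W : U4} (hW : W ∈ U4.Z1) (A : U4) : W⁻¹ * A * W =
    ⟨A.a, A.b, A.c, A.d, A.e, A.f + A.a * W.e - W.d * A.c⟩ := by
  obtain ⟨h1, h2, h3⟩ := hW
  ext <;> simp [h1, h2, h3]
  ring

lemma P2_cc {i : ι} {w : FreeGroup ι} (hw : ∀ φ : FreeGroup ι →* U4, φ (kil i w) ∈ U4.Z1) :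
    P2 (cc i w) := by
  intro φ x
  have e1 : (U4.p1.comp φ).comp (cc i w).toMonoidHom = U4.p1.comp φ := by
    ext1 l
    show U4.p1 (φ (cc i w (of l))) = U4.p1 (φ (of l))
    by_cases hl : l = i
    · subst hl
      rw [cc_self, map_mul φ, map_mul φ, map_inv φ, U4.conj_eq (hw φ)]
      rfl
    · rw [cc_ne hl]
  have e2 : (U4.p2.comp φ).comp (cc i w).toMonoidHom = U4.p2.comp φ := by
    ext1 l
    show U4.p2 (φ (cc i w (of l))) = U4.p2 (φ (of l))
    by_cases hl : l = i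
    · subst hl
      rw [cc_self, map_mul φ, map_mul φ, map_inv φ, U4.conj_eq (hw φ)]
      rfl
    · rw [cc_ne hl]
  exact ⟨DFunLike.congr_fun e1 x, DFunLike.congr_fun e2 x⟩

lemma comm_de (x y : U4) : ⁅x, y⁆.d = x.a * y.b - y.a * x.b ∧ ⁅x, y⁆.e = x.b * y.c - y.b * x.c := by
  constructor
  · simp [commutatorElement_def]; ring
  · simp [commutatorElement_def]; ring

lemma DD_cc {i j k : ι} (hij : i ≠ j) (hik : i ≠ k) (φ : FreeGroup ι →* U4) (m : ι) :
    DD (cc i ⁅of j, of k⁆) φ (of m) = if m = i then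
      (φ (of i)).a * ((φ (of j)).b * (φ (of k)).c - (φ (of k)).b * (φ (of j)).c) -
      ((φ (of j)).a * (φ (of k)).b - (φ (of k)).a * (φ (of j)).b) * (φ (of i)).c else 0 := by
  unfold DD
  by_cases hm : m = i
  · subst hm
    rw [if_pos rfl, cc_self, kil_comm_of hij.symm hik.symm, map_mul, map_mul, map_inv,
      map_commutatorElement, U4.conj_eq (U4.comm_Z1 _ _), (comm_de _ _).1, (comm_de _ _).2]
    ring
  · rw [if_neg hm, cc_ne hm, sub_self]

lemma P2_cck {i j k : ι} : P2 (cc i ⁅of j, of k⁆ : MulAut (FreeGroup ι)) := by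
  apply P2_cc
  intro φ
  rw [map_commutatorElement, map_commutatorElement]
  exact U4.comm_Z1 _ _

/-- The trace of a conjugate of a basic element. -/
lemma tr_conj_cc {i j k : ι} (hij : i ≠ j) (hik : i ≠ k) (g : MulAut (FreeGroup ι)) :
    tr (g * cc i ⁅of j, of k⁆ * g⁻¹) = K3.alt (xv (g (of j))) (xv (g (of k))) := by
  funext ⟨a, b⟩
  show ∑ l, DD (g * cc i ⁅of j, of k⁆ * g⁻¹) (rh l a b) (of l) =
    xv (g (of j)) a * xv (g (of k)) b - xv (g (of j)) b * xv (g (of k)) a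
  have h1 : ∀ l, DD (g * cc i ⁅of j, of k⁆ * g⁻¹) (rh l a b) (of l) =
      xv (g⁻¹ (of l)) i *
        (xv (g (of i)) l * (xv (g (of j)) a * xv (g (of k)) b - xv (g (of k)) a * xv (g (of j)) b) -
        (xv (g (of j)) l * xv (g (of k)) a - xv (g (of k)) l * xv (g (of j)) a) *
          xv (g (of i)) b) := by
    intro l
    rw [DD_conj, DD_lin P2_cck, Finset.sum_eq_single i]
    · rw [DD_cc hij hik, if_pos rfl]
      show _ * ((rh l a b (g (of i))).a * ((rh l a b (g (of j))).b * (rh l a b (g (of k))).c -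
        (rh l a b (g (of k))).b * (rh l a b (g (of j))).c) -
        ((rh l a b (g (of j))).a * (rh l a b (g (of k))).b -
          (rh l a b (g (of k))).a * (rh l a b (g (of j))).b) * (rh l a b (g (of i))).c) = _
      simp only [rh_a, rh_b, rh_c]
    · intro m _ hm
      rw [DD_cc hij hik, if_neg hm, mul_zero]
    · intro hk; exact absurd (Finset.mem_univ _) hk
  have h2 : ∀ m, ∑ l, xv (g⁻¹ (of l)) i * xv (g (of m)) l = if m = i then 1 else 0 := by
    intro m
    have e : (mA g⁻¹ * mA g) i m = (1 : Matrix ι ι ℤ) i m := by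
      rw [← mA_mul, inv_mul_cancel, mA_one]
    rw [Matrix.mul_apply, Matrix.one_apply] at e
    rw [show (∑ l, xv (g⁻¹ (of l)) i * xv (g (of m)) l) = ∑ l, mA g⁻¹ i l * mA g l m from rfl, e]
    by_cases h : i = m
    · rw [if_pos h, if_pos h.symm]
    · rw [if_neg h, if_neg (Ne.symm h)]
  simp only [h1]
  have h3 : ∀ l, xv (g⁻¹ (of l)) i *
        (xv (g (of i)) l * (xv (g (of j)) a * xv (g (of k)) b - xv (g (of k)) a * xv (g (of j)) b) -
        (xv (g (of j)) l * xv (g (of k)) a - xv (g (of k)) l * xv (g (of j)) a) *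
          xv (g (of i)) b) =
      (xv (g⁻¹ (of l)) i * xv (g (of i)) l) *
        (xv (g (of j)) a * xv (g (of k)) b - xv (g (of k)) a * xv (g (of j)) b) -
      (xv (g⁻¹ (of l)) i * xv (g (of j)) l) * (xv (g (of k)) a * xv (g (of i)) b) +
      (xv (g⁻¹ (of l)) i * xv (g (of k)) l) * (xv (g (of j)) a * xv (g (of i)) b) := by
    intro l; ring
  simp only [h3]
  rw [Finset.sum_add_distrib, Finset.sum_sub_distrib, ← Finset.sum_mul, ← Finset.sum_mul,
    ← Finset.sum_mul, h2, h2, h2, if_pos rfl, if_neg hij.symm, if_neg hik.symm]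
  ring

end Pool.Agent.H12.CSP
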