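import Pool.Agent.H12.CSP.T4

set_option autoImplicit false
set_option linter.unusedSectionVars false
set_option linter.unusedSimpArgs false
set_option linter.unusedVariables false
set_option linter.unnecessarySeqFocus false

/-! The automorphisms acting trivially modulo the fourth term of the lower central series. -/

namespace Pool.Agent.H12.CSP

open Pool.Agent.Helper460_OutF Pool.Agent.Helper460_CSP
open FreeGroup (of)
open Pool.Agent.Helper156.OF (SP toAut toAut_gl gl nv gl_nv gl_true Lt SP.map_nv)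
open scoped commutatorElement

variable {ι : Type} [DecidableEq ι] [Fintype ι] [LinearOrder ι]

variable (ι) in
/-- The normal closure of the partial conjugations by commutators. -/
def CC : Subgroup (MulAut (FreeGroup ι)) :=
  Subgroup.normalClosure {x | ∃ i j k, i ≠ j ∧ i ≠ k ∧ x = cc i ⁅of j, of k⁆}

instance : (CC ι).Normal := Subgroup.normalClosure_normal

lemma CC_ind {P : MulAut (FreeGroup ι) → Prop}
    (h1 : ∀ (g : MulAut (FreeGroup ι)) (i j k : ι), i ≠ j → i ≠ k →
      P (g * cc i ⁅of j, of k⁆ * g⁻¹))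
    (h2 : P 1) (h3 : ∀ a b, P a → P b → P (a * b)) (h4 : ∀ a, P a → P a⁻¹) :
    ∀ c ∈ CC ι, P c := by
  intro c hc
  unfold CC Subgroup.normalClosure at hc
  induction hc using Subgroup.closure_induction with
  | mem x hx =>
    rw [Group.mem_conjugatesOfSet_iff] at hx
    obtain ⟨a, ⟨i, j, k, hij, hik, rfl⟩, hax⟩ := hx
    obtain ⟨b, hb⟩ := isConj_iff.1 hax
    rw [← hb]
    exact h1 b i j k hij hik
  | one => exact h2
  | mul a b _ _ ha hb => exact h3 a b ha hb
  | inv a _ ha => exact h4 a ha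

lemma CC_prop {c : MulAut (FreeGroup ι)} (hc : c ∈ CC ι) : P2 c ∧ c ∈ IA (FreeGroup ι) := by
  refine CC_ind (P := fun c => P2 c ∧ c ∈ IA (FreeGroup ι)) ?_ ?_ ?_ ?_ c hc
  · intro g i j k _ _
    exact ⟨P2_cck.conj g, (IA_normal (FreeGroup ι)).conj_mem _ (cc_mem_IA _ _) g⟩
  · exact ⟨P2_one, one_mem _⟩
  · rintro a b ⟨h1, h2⟩ ⟨h3, h4⟩
    exact ⟨h1.mul h3, mul_mem h2 h4⟩
  · rintro a ⟨h1, h2⟩
    exact ⟨h1.inv, inv_mem h2⟩

lemma NN_decomp {α : MulAut (FreeGroup ι)} (h : α ∈ NN ι) :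
    ∃ g : FreeGroup ι, ∃ c ∈ CC ι, α = MulAut.conj g * c := by
  have hn : ((MulAut.conj : FreeGroup ι →* MulAut (FreeGroup ι)).range).Normal := by
    refine ⟨?_⟩
    rintro _ ⟨g, rfl⟩ b
    refine ⟨b g, ?_⟩
    rw [eq_mul_inv_iff_mul_eq]
    ext x
    simp [MulAut.conj_apply]
  have h1 : NN ι ≤ (MulAut.conj : FreeGroup ι →* MulAut (FreeGroup ι)).range ⊔ CC ι := by
    apply Subgroup.normalClosure_le_normal
    rintro x (⟨g, rfl⟩ | ⟨i, j, k, h1, h2, rfl⟩)
    · exact Subgroup.mem_sup_left ⟨g, rfl⟩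
    · exact Subgroup.mem_sup_right (Subgroup.subset_normalClosure ⟨i, j, k, h1, h2, rfl⟩)
  have h2 := h1 h
  rw [← SetLike.mem_coe, Subgroup.mul_normal] at h2
  obtain ⟨_, ⟨g, rfl⟩, c, hc, e⟩ := h2
  exact ⟨g, c, hc, e.symm⟩

section

variable {G : Type} [Group G] {q : MulAut (FreeGroup ι) →* G}

namespace K3

variable (h : K3 q)

include h in
lemma CC_Th {c : MulAut (FreeGroup ι)} (hc : c ∈ CC ι) : q c = (h.Th (tr c) : G) := by
  have key : ∀ c ∈ CC ι, P2 c ∧ c ∈ IA (FreeGroup ι) ∧ q c = (h.Th (tr c) : G) := by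
    apply CC_ind
    · intro g i j k hij hik
      refine ⟨P2_cck.conj g, (IA_normal (FreeGroup ι)).conj_mem _ (cc_mem_IA _ _) g, ?_⟩
      rw [tr_conj_cc hij hik, map_mul, map_mul, map_inv, h.zz_eq hij hik, h.conj_zz]
      rfl
    · refine ⟨P2_one, one_mem _, ?_⟩
      unfold Th
      rw [tr_one, Rr_zero, map_one]
      rfl
    · rintro a b ⟨h1, h2, h3⟩ ⟨h4, h5, h6⟩
      refine ⟨h1.mul h4, mul_mem h2 h5, ?_⟩
      rw [map_mul, h3, h6, tr_mul h1 h5]
      unfold Th
      rw [Rr_add]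
      rfl
    · rintro a ⟨h1, h2, h3⟩
      refine ⟨h1.inv, inv_mem h2, ?_⟩
      rw [map_inv, h3, tr_inv h1 h2]
      unfold Th
      rw [Rr_neg]
      rfl
  exact (key c hc).2.2

/-- The power map kills the central subgroup. -/
lemma Rr_pow (t : ι × ι → ℤ) : Rr h.Zg t ^ (Fintype.card ι + 1) = 1 := by
  unfold Rr
  rw [← Finset.prod_pow]
  apply Finset.prod_eq_one
  intro p _
  have e : h.Zg p ^ (Fintype.card ι + 1) = 1 := by
    unfold Zg
    split_ifs
    · apply Subtype.ext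
      show h.zz p.1 p.2 ^ (Fintype.card ι + 1) = 1
      exact h.zz_pow _ _
    · exact one_pow _
  calc (h.Zg p ^ t p) ^ (Fintype.card ι + 1) = (h.Zg p ^ (Fintype.card ι + 1)) ^ t p := by
        rw [← zpow_natCast, ← zpow_natCast, ← zpow_mul, ← zpow_mul, mul_comm]
    _ = 1 := by rw [e, one_zpow]

end K3

end

/-- The shuffle relation. -/
lemma shuffle {g : FreeGroup ι} (hg : xv g = 0) (a b : ι) :
    (ph ℤ b a g).c = - (ph ℤ a b g).c := by
  let S : FreeGroup ι →* Multiplicative ℤ :=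
    { toFun := fun w => Multiplicative.ofAdd ((ph ℤ a b w).c + (ph ℤ b a w).c - xv w a * xv w b)
      map_one' := by
        rw [map_one, map_one, xv_one]
        simp
      map_mul' := fun x y => by
        rw [← ofAdd_add]
        congr 1
        rw [map_mul, map_mul, Hs.mul_c, Hs.mul_c, ph_a, ph_b, ph_a, ph_b, xv_mul, Pi.add_apply,
          Pi.add_apply]
        simp only [Int.cast_id]
        ring }
  have h1 : S g = S 1 := hom_xv S (by rw [hg, xv_one])
  rw [map_one] at h1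
  have h2 : (ph ℤ a b g).c + (ph ℤ b a g).c - xv g a * xv g b = 0 := h1
  rw [hg] at h2
  simp only [Pi.zero_apply, mul_zero, sub_zero] at h2
  omega

lemma rh_Z1 {g : FreeGroup ι} (hg : xv g = 0) (φ : FreeGroup ι →* U4) : φ g ∈ U4.Z1 := by
  have h1 : Abelianization.of g = Abelianization.of 1 := xv_eq_iff.1 (by rw [hg, xv_one])
  rw [map_one] at h1
  have h2 : g ∈ (Abelianization.of : FreeGroup ι →* _).ker := h1
  rw [Abelianization.ker_of] at h2
  have h3 : commutator (FreeGroup ι) ≤ U4.Z1.comap φ := by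
    rw [commutator_def, Subgroup.commutator_le]
    intro u _ v _
    show φ ⁅u, v⁆ ∈ U4.Z1
    rw [map_commutatorElement]
    exact U4.comm_Z1 _ _
  exact h3 h2

lemma conj_form {g : FreeGroup ι} (hg : xv g = 0) (φ : FreeGroup ι →* U4) (x : FreeGroup ι) :
    φ (MulAut.conj g x) = ⟨(φ x).a, (φ x).b, (φ x).c, (φ x).d, (φ x).e,
      (φ x).f - (φ x).a * (φ g).e + (φ g).d * (φ x).c⟩ := by
  have hZ := rh_Z1 hg φ
  have h1 := U4.conj_eq (inv_mem hZ) (φ x)
  rw [inv_inv] at h1
  rw [MulAut.conj_apply, map_mul, map_mul, map_inv, h1]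
  obtain ⟨h2, h3, h4⟩ := hZ
  ext <;> simp [h2, h3, h4]
  ring

lemma P2_conj {g : FreeGroup ι} (hg : xv g = 0) : P2 (MulAut.conj g : MulAut (FreeGroup ι)) := by
  intro φ x
  rw [conj_form hg φ x]
  exact U4.Eqv.mk' rfl rfl rfl rfl rfl

lemma tr_conj {g : FreeGroup ι} (hg : xv g = 0) : tr (MulAut.conj g : MulAut (FreeGroup ι)) =
    fun p => ((Fintype.card ι + 1 : ℕ) : ℤ) * (- (ph ℤ p.1 p.2 g).c) := by
  funext ⟨a, b⟩
  show ∑ l, DD (MulAut.conj g) (rh l a b) (of l) = _
  have h1 : ∀ l, DD (MulAut.conj g) (rh l a b) (of l) =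
      - (ph ℤ a b g).c + (if l = b then (ph ℤ l a g).c else 0) := by
    intro l
    unfold DD
    rw [conj_form hg]
    simp only [rh_e, rh_d, rh_of, if_true]
    split_ifs <;> ring
  simp only [h1]
  rw [Finset.sum_add_distrib, Finset.sum_const, Finset.sum_ite_eq' Finset.univ b,
    if_pos (Finset.mem_univ _), shuffle hg a b, Finset.card_univ]
  push_cast
  simp only [nsmul_eq_mul]
  ring

/-- The commutator subgroup of `IA` lies in the normal closure. -/
lemma comm_IA_le_NN : ⁅IA (FreeGroup ι), IA (FreeGroup ι)⁆ ≤ NN ι := by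
  rw [Subgroup.commutator_le]
  intro a ha b hb
  rw [← q0_one, map_commutatorElement, commutatorElement_eq_one_iff_commute]
  exact q0_kills.H0_comm (IA_H0 ha) (IA_H0 hb)

section

variable {G : Type} [Group G] {q : MulAut (FreeGroup ι) →* G}

namespace K3

variable (h : K3 q)

include h in
/-- **The class three theorem.** -/
theorem kills {α : MulAut (FreeGroup ι)}
    (hα : ∀ x, α x * x⁻¹ ∈ (⊤ : Subgroup (FreeGroup ι)).lowerCentralSeries 3) : q α = 1 := by
  have h1 : ∀ (φ : FreeGroup ι →* U4) (x : FreeGroup ι), φ (α x) = φ x := by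
    intro φ x
    have := lcs_Z3 φ (hα x)
    rwa [map_mul, map_inv, mul_inv_eq_one] at this
  have h2 : α ∈ IA (FreeGroup ι) := by
    intro x
    apply xv_eq_iff.1
    funext l
    rw [← rh_a l l l, ← rh_a l l l, h1]
  have h3 : Jo α = 0 := by
    funext p
    show (ph ℤ p.2.1 p.2.2 (α (of p.1))).c = 0
    rw [← rh_d p.2.1 p.2.2 p.2.2, h1, rh_of]
  have h4 : α ∈ NN ι := by
    rw [← q0_one, (IA_le_Dd h2).2, h3, Rr_zero]
    rfl
  obtain ⟨g, c, hc, e⟩ := NN_decomp h4
  obtain ⟨hc1, hc2⟩ := CC_prop hc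
  have hg : xv g = 0 := by
    funext m
    obtain ⟨l, hl, -⟩ := h.ex m m m
    have h5 := h1 (rh l m m) (of l)
    rw [e, MulAut.mul_apply, MulAut.conj_apply, map_mul, map_mul, map_inv] at h5
    have h6 := congrArg U4.p1 h5
    rw [map_mul, map_mul, map_inv, (hc1 (rh l m m) (of l)).1, rh_p1, rh_p1, ph_of] at h6
    have h7 := congrArg Hs.c h6
    simp only [Hs.mul_c, Hs.inv_c, Hs.mul_a, Hs.inv_b, if_true, if_neg hl, ph_a, ph_b,
      Int.cast_id] at h7
    simp only [Pi.zero_apply]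
    linarith
  have hg' : xv g⁻¹ = 0 := by rw [xv_inv, hg, neg_zero]
  have e2 : c = MulAut.conj g⁻¹ * α := by
    rw [e, map_inv, inv_mul_cancel_left]
  have h5 : tr c = fun p => ((Fintype.card ι + 1 : ℕ) : ℤ) * (- (ph ℤ p.1 p.2 g⁻¹).c) := by
    rw [e2, tr_mul (P2_conj hg') h2, tr_conj hg']
    have h6 : tr α = 0 := by
      funext p
      show ∑ l, DD α (rh l p.1 p.2) (of l) = 0
      apply Finset.sum_eq_zero
      intro l _
      unfold DD
      rw [h1, sub_self]
    rw [h6, add_zero]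
  rw [e, map_mul, h.inn, one_mul, h.CC_Th hc, h5]
  unfold Th
  rw [Rr_smul, h.Rr_pow]
  rfl

include h in
lemma comm_IA_Zs {x : MulAut (FreeGroup ι)} (hx : x ∈ ⁅IA (FreeGroup ι), IA (FreeGroup ι)⁆) :
    q x ∈ h.Zs := by
  obtain ⟨g, c, hc, e⟩ := NN_decomp (comm_IA_le_NN hx)
  rw [e, map_mul, h.inn, one_mul, h.CC_Th hc]
  exact Subtype.mem _

/-- The parametrisation of the central subgroup. -/
noncomputable def par (h : K3 q) :
    ({p : ι × ι // p.1 < p.2} → Multiplicative (ZMod (Fintype.card ι + 1))) →* h.Zs where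
  toFun f := ∏ p, h.Zg p.1 ^ (Multiplicative.toAdd (f p)).val
  map_one' := by
    apply Finset.prod_eq_one
    intro p _
    show h.Zg p.1 ^ (0 : ZMod (Fintype.card ι + 1)).val = 1
    rw [ZMod.val_zero, pow_zero]
  map_mul' f f' := by
    rw [← Finset.prod_mul_distrib]
    apply Finset.prod_congr rfl
    intro p _
    rw [← pow_add]
    show h.Zg p.1 ^ (Multiplicative.toAdd (f p) + Multiplicative.toAdd (f' p)).val = _
    rw [ZMod.val_add]
    have e : h.Zg p.1 ^ (Fintype.card ι + 1) = 1 := by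
      unfold Zg
      rw [if_pos p.2]
      apply Subtype.ext
      exact h.zz_pow _ _
    generalize (Multiplicative.toAdd (f p)).val + (Multiplicative.toAdd (f' p)).val = N
    conv_rhs => rw [← Nat.mod_add_div N (Fintype.card ι + 1), pow_add, pow_mul, e, one_pow, mul_one]

lemma par_surj : Function.Surjective h.par := by
  have h1 : ∀ (p : {p : ι × ι // p.1 < p.2}), h.Zg p.1 ∈ h.par.range := by
    intro p
    refine ⟨Pi.mulSingle p (Multiplicative.ofAdd 1), ?_⟩
    show ∏ p', h.Zg p'.1 ^ (Multiplicative.toAdd ((Pi.mulSingle p (Multiplicative.ofAdd 1) :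
      {p : ι × ι // p.1 < p.2} → Multiplicative (ZMod (Fintype.card ι + 1))) p')).val = _
    rw [Finset.prod_eq_single p]
    · rw [Pi.mulSingle_eq_same]
      have : Fact (1 < Fintype.card ι + 1) := ⟨by
        have : Nonempty ι := ⟨p.1.1⟩
        have := Fintype.card_pos (α := ι)
        omega⟩
      show _ ^ (1 : ZMod (Fintype.card ι + 1)).val = _
      rw [ZMod.val_one, pow_one]
    · intro b _ hb
      rw [Pi.mulSingle_eq_of_ne hb]
      show _ ^ (0 : ZMod (Fintype.card ι + 1)).val = _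
      rw [ZMod.val_zero, pow_zero]
    · intro hk; exact absurd (Finset.mem_univ _) hk
  have h2 : ∀ j k, (⟨h.zz j k, h.zz_mem j k⟩ : h.Zs) ∈ h.par.range := by
    intro j k
    rcases lt_trichotomy j k with h3 | h3 | h3
    · have := h1 ⟨(j, k), h3⟩
      unfold Zg at this
      rwa [if_pos h3] at this
    · subst h3
      have : (⟨h.zz j j, h.zz_mem j j⟩ : h.Zs) = 1 := Subtype.ext (h.zz_self j)
      rw [this]; exact one_mem _
    · have h4 := h1 ⟨(k, j), h3⟩
      unfold Zg at h4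
      rw [if_pos h3] at h4
      have : (⟨h.zz j k, h.zz_mem j k⟩ : h.Zs) = (⟨h.zz k j, h.zz_mem k j⟩ : h.Zs)⁻¹ :=
        Subtype.ext (h.zz_swap k j)
      rw [this]; exact inv_mem h4
  rintro ⟨x, hx⟩
  have h3 : x ∈ (h.par.range).map h.Zs.subtype := by
    induction hx using Subgroup.closure_induction with
    | mem x hx => obtain ⟨⟨l, m⟩, rfl⟩ := hx; exact ⟨_, h2 l m, rfl⟩
    | one => exact one_mem _
    | mul x y _ _ hx hy => exact mul_mem hx hy
    | inv x _ hx => exact inv_mem hx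
  obtain ⟨y, ⟨f, hf⟩, hy⟩ := h3
  exact ⟨f, Subtype.ext (by rw [hf]; exact hy)⟩

lemma card_pairs : Fintype.card {p : ι × ι // p.1 < p.2} = (Fintype.card ι).choose 2 := by
  have h1 : Fintype.card {p : ι × ι // p.1 < p.2} = Fintype.card {s : Finset ι // s.card = 2} := by
    refine Fintype.card_of_bijective (f := fun p => ⟨{p.1.1, p.1.2},
      Finset.card_pair (ne_of_lt p.2)⟩) ⟨?_, ?_⟩
    · rintro ⟨⟨a, b⟩, hab⟩ ⟨⟨c, d⟩, hcd⟩ h
      have h2 : ({a, b} : Finset ι) = {c, d} := congrArg Subtype.val h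
      simp only at hab hcd
      have ha : a ∈ ({c, d} : Finset ι) := h2 ▸ Finset.mem_insert_self _ _
      have hb : b ∈ ({c, d} : Finset ι) := h2 ▸ (by simp)
      rw [Finset.mem_insert, Finset.mem_singleton] at ha hb
      apply Subtype.ext
      rcases ha with rfl | rfl <;> rcases hb with rfl | rfl
      · exact absurd hab (lt_irrefl _)
      · rfl
      · exact absurd hab (not_lt.2 hcd.le)
      · exact absurd hab (lt_irrefl _)
    · rintro ⟨s, hs⟩
      obtain ⟨a, b, hab, rfl⟩ := Finset.card_eq_two.1 hs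
      rcases lt_or_gt_of_ne hab with h3 | h3
      · exact ⟨⟨(a, b), h3⟩, rfl⟩
      · exact ⟨⟨(b, a), h3⟩, Subtype.ext (Finset.pair_comm b a)⟩
  rw [h1, Fintype.card_finset_len]

lemma card_Zs (h : K3 q) :
    Nat.card h.Zs ∣ (Fintype.card ι + 1) ^ (Fintype.card ι).choose 2 := by
  have h1 := Subgroup.card_range_dvd h.par
  rw [MonoidHom.range_eq_top.2 h.par_surj, Nat.card_congr (Subgroup.topEquiv (G := h.Zs)).toEquiv] at h1
  have h2 : Nat.card ({p : ι × ι // p.1 < p.2} → Multiplicative (ZMod (Fintype.card ι + 1))) =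
      (Fintype.card ι + 1) ^ (Fintype.card ι).choose 2 := by
    have h3 : Nat.card (Multiplicative (ZMod (Fintype.card ι + 1))) = Fintype.card ι + 1 :=
      Nat.card_zmod _
    rw [Nat.card_fun, h3, Nat.card_eq_fintype_card, card_pairs]
  rwa [h2] at h1

end K3

end

end Pool.Agent.H12.CSP
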