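import Pool.Agent.H12.CSP.T5

set_option autoImplicit false
set_option linter.unusedSectionVars false
set_option linter.unusedSimpArgs false
set_option linter.unusedVariables false
set_option linter.unnecessarySeqFocus false

/-! Many elements in the image if the triple commutators survive. -/

namespace Pool.Agent.H12.CSP

open Pool.Agent.Helper460_OutF Pool.Agent.Helper460_CSP
open FreeGroup (of)
open scoped commutatorElement

variable {ι : Type} [DecidableEq ι]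

section

variable {G : Type} [Group G]

/-- The words without the letters `i₀` and `κ`. -/
def UU (i₀ κ : ι) : Subgroup (FreeGroup ι) where
  carrier := {u | kil i₀ u = u ∧ kil κ u = u}
  mul_mem' := by
    rintro a b ⟨h1, h2⟩ ⟨h3, h4⟩
    exact ⟨by rw [map_mul, h1, h3], by rw [map_mul, h2, h4]⟩
  one_mem' := ⟨map_one _, map_one _⟩
  inv_mem' := by
    rintro a ⟨h1, h2⟩
    exact ⟨by rw [map_inv, h1], by rw [map_inv, h2]⟩

/-- The centralizing elements. -/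
def Cz (i₀ κ : ι) (θ : FreeGroup ι →* G) : Subgroup (FreeGroup ι) where
  carrier := {x | ∀ u ∈ UU i₀ κ, Commute (θ x) (θ u)}
  mul_mem' := by
    intro a b ha hb u hu
    rw [map_mul]
    exact (ha u hu).mul_left (hb u hu)
  one_mem' := by
    intro u hu
    rw [map_one]
    exact Commute.one_left _
  inv_mem' := by
    intro a ha u hu
    rw [map_inv]
    exact (ha u hu).inv_left

variable {i₀ κ : ι} {θ : FreeGroup ι →* G}

lemma Cz_conj {x v : FreeGroup ι} (hx : x ∈ Cz i₀ κ θ) (hv : v ∈ UU i₀ κ) :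
    v * x * v⁻¹ ∈ Cz i₀ κ θ := by
  intro u hu
  have h1 := hx (v⁻¹ * u * v) (mul_mem (mul_mem (inv_mem hv) hu) hv)
  have h2 := (Commute.conj_iff (θ v)).2 h1
  rw [← map_inv, ← map_mul, ← map_mul, ← map_mul, ← map_mul] at h2
  have e : v * (v⁻¹ * u * v) * v⁻¹ = u := by group
  rwa [e] at h2

lemma Cz_conj' {x v : FreeGroup ι} (hx : v * x * v⁻¹ ∈ Cz i₀ κ θ) (hv : v ∈ UU i₀ κ) :
    x ∈ Cz i₀ κ θ := by
  have h1 := Cz_conj hx (inv_mem hv)
  have e : v⁻¹ * (v * x * v⁻¹) * v⁻¹⁻¹ = x := by group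
  rwa [e] at h1

variable (h : TrInv i₀ θ)

include h

lemma Cz_rr {l : ι} (hl0 : l ≠ i₀) (hlκ : l ≠ κ) {v x : FreeGroup ι} (hv : v ∈ UU i₀ κ)
    (hx : x ∈ Cz i₀ κ θ) : rr l v x ∈ Cz i₀ κ θ := by
  intro u hu
  set u' := rr l v⁻¹ u with hu'
  have e0 : rr l v u' = u := by rw [hu', map_inv, MulAut.apply_inv_self]
  have hvi := inv_mem hv
  have hu'2 : u' ∈ UU i₀ κ := by
    refine ⟨?_, ?_⟩
    · rw [hu', (pres_rr hl0.symm hvi.1).kil, hu.1]
    · rw [hu', (pres_rr hlκ.symm hvi.2).kil, hu.2]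
  have h3 := (hx u' hu'2).eq
  rw [← map_mul, ← map_mul] at h3
  have h4 := h.inv l v hl0 hv.1 _ _ h3
  rw [map_mul (rr l v), map_mul (rr l v), e0, map_mul θ, map_mul θ] at h4
  exact h4

/-- The main step. -/
lemma cz_step (hne : ∀ a b c, a ≠ i₀ → b ≠ i₀ → c ≠ i₀ → a ≠ b → a ≠ c → b ≠ c →
      θ ⁅⁅of a, of b⁆, of c⁆ ≠ 1)
    (hp : ∀ a b c d : ι, ∃ p, p ≠ a ∧ p ≠ b ∧ p ≠ c ∧ p ≠ d)
    {e : ℕ → ι} {j : ℕ} (hej : ∀ a < j + 1, e a ≠ i₀ ∧ e a ≠ κ)
    (hinj : ∀ a < j + 1, ∀ b < j + 1, e a = e b → a = b) {g g' : FreeGroup ι}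
    (hg : g ∈ UU i₀ κ) (hg' : g' ∈ UU i₀ κ) (hgl : kil (e j) g = g) (hgl' : kil (e j) g' = g')
    {S S' : Finset ℕ}
    (hX : (g' * ⁅wd e S' j, of (e j)⁆)⁻¹ * (g * ⁅wd e S j, of (e j)⁆) ∈ Cz i₀ κ θ) :
    ∀ t < j, t ∈ S → t ∈ S' := by
  intro t htj htS
  by_contra htS'
  set l := e j with hl
  have hl0 : l ≠ i₀ := (hej j (by omega)).1
  have hlκ : l ≠ κ := (hej j (by omega)).2
  have hwU : ∀ S, wd e S j ∈ UU i₀ κ := fun S =>
    ⟨kil_wd_ne fun a ha _ => (hej a (by omega)).1, kil_wd_ne fun a ha _ => (hej a (by omega)).2⟩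
  have hwl : ∀ S, kil l (wd e S j) = wd e S j := fun S => kil_wd_ne fun a ha _ h' => by
    have := hinj a (by omega) j (by omega) h'
    omega
  have hofl : (of l : FreeGroup ι) ∈ UU i₀ κ := ⟨kil_ne hl0, kil_ne hlκ⟩
  obtain ⟨b, hb1, hb2, hb3⟩ := wd_split (e := e) htj htS
    (fun a ha h' => hinj a (by omega) t (by omega) h')
  have hbU : b ∈ UU i₀ κ := ⟨hb1 _ fun a ha => (hej a (by omega)).1,
    hb1 _ fun a ha => (hej a (by omega)).2⟩
  set l' := e t with hl'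
  have hl'0 : l' ≠ i₀ := (hej t (by omega)).1
  have hl'κ : l' ≠ κ := (hej t (by omega)).2
  have hll' : l ≠ l' := fun h' => by
    have := hinj j (by omega) t (by omega) h'
    omega
  have ha'l' : kil l' (wd e S' j) = wd e S' j := kil_wd_ne fun a ha haS h' => by
    have := hinj a (by omega) t (by omega) h'
    subst this
    exact htS' haS
  have ha1l' : kil l' (wd e S t) = wd e S t := kil_wd_ne fun a ha haS h' => by
    have := hinj a (by omega) t (by omega) h'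
    omega
  have ha1U : wd e S t ∈ UU i₀ κ := ⟨kil_wd_ne fun a ha _ => (hej a (by omega)).1,
    kil_wd_ne fun a ha _ => (hej a (by omega)).2⟩
  -- first step
  have st1 : ∀ u ∈ UU i₀ κ, kil l u = u →
      ⁅wd e S' j, u⁆⁻¹ * ⁅wd e S j, u⁆ ∈ Cz i₀ κ θ := by
    intro u hu hul
    have h1 := Cz_rr h hl0 hlκ hu hX
    have e1 : ∀ {g a : FreeGroup ι}, kil l g = g → kil l a = a →
        rr l u (g * ⁅a, of l⁆) = g * ⁅a, of l⁆ * (of l * ⁅a, u⁆ * (of l)⁻¹) := by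
      intro g a hg ha
      rw [map_mul, map_commutatorElement, rr_fix l u hg, rr_fix l u ha, rr_self, hul]
      simp only [commutatorElement_def]
      group
    rw [map_mul (rr l u), map_inv (rr l u), e1 hgl (hwl S), e1 hgl' (hwl S')] at h1
    have hyU : ∀ S, of l * ⁅wd e S j, u⁆ * (of l)⁻¹ ∈ UU i₀ κ := fun S => by
      rw [commutatorElement_def]
      exact mul_mem (mul_mem hofl (mul_mem (mul_mem (mul_mem (hwU S) hu) (inv_mem (hwU S)))
        (inv_mem hu))) (inv_mem hofl)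
    set y := of l * ⁅wd e S j, u⁆ * (of l)⁻¹ with hy
    set y' := of l * ⁅wd e S' j, u⁆ * (of l)⁻¹ with hy'
    set X := (g' * ⁅wd e S' j, of l⁆)⁻¹ * (g * ⁅wd e S j, of l⁆) with hXd
    have e2 : (g' * ⁅wd e S' j, of l⁆ * y')⁻¹ * (g * ⁅wd e S j, of l⁆ * y) =
        y'⁻¹ * X * y := by rw [hXd]; group
    rw [e2] at h1
    -- `y'⁻¹ X y = (y'⁻¹ X y') (y'⁻¹ y)`
    have h2 : y'⁻¹ * X * y' ∈ Cz i₀ κ θ := by
      have := Cz_conj hX (inv_mem (hyU S'))
      rwa [inv_inv] at this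
    have h3 := mul_mem (inv_mem h2) h1
    have e3 : (y'⁻¹ * X * y')⁻¹ * (y'⁻¹ * X * y) = y'⁻¹ * y := by group
    rw [e3] at h3
    have e4 : y'⁻¹ * y = of l * (⁅wd e S' j, u⁆⁻¹ * ⁅wd e S j, u⁆) * (of l)⁻¹ := by
      rw [hy, hy']; group
    rw [e4] at h3
    exact Cz_conj' h3 hofl
  obtain ⟨p, hp1, hp2, hp3, hp4⟩ := hp i₀ κ l l'
  have hofp : (of p : FreeGroup ι) ∈ UU i₀ κ := ⟨kil_ne hp1, kil_ne hp2⟩
  have h1 := st1 (of p) hofp (kil_ne hp3)
  -- the transvection `x_{l'} ↦ x_{l'} (b x_l b⁻¹)`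
  have hvU : b * of l * b⁻¹ ∈ UU i₀ κ := mul_mem (mul_mem hbU hofl) (inv_mem hbU)
  have hvl' : kil l' (b * of l * b⁻¹) = b * of l * b⁻¹ := by
    rw [map_mul, map_mul, map_inv, hb2, kil_ne hll']
  have h2 := Cz_rr h hl'0 hl'κ hvU h1
  rw [map_mul (rr l' _), map_inv (rr l' _), map_commutatorElement (rr l' _),
    map_commutatorElement (rr l' _), rr_fix l' _ ha'l', rr_ne hp4, hb3, map_mul (rr l' _),
    map_mul (rr l' _), rr_fix l' _ ha1l', rr_self, hvl', rr_fix l' _ hb2] at h2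
  rw [hb3] at h1
  have h3 := mul_mem (inv_mem h1) h2
  have hAU : wd e S t * of l' ∈ UU i₀ κ := mul_mem ha1U ⟨kil_ne hl'0, kil_ne hl'κ⟩
  set A := wd e S t * of l' with hA
  have hcU : ∀ a b, a ∈ UU i₀ κ → b ∈ UU i₀ κ → ⁅a, b⁆ ∈ UU i₀ κ := fun a b ha hb => by
    rw [commutatorElement_def]
    exact mul_mem (mul_mem (mul_mem ha hb) (inv_mem ha)) (inv_mem hb)
  have e5 : (⁅wd e S' j, of p⁆⁻¹ * ⁅A * b, of p⁆)⁻¹ *
      (⁅wd e S' j, of p⁆⁻¹ * ⁅wd e S t * (of l' * (b * of l * b⁻¹)) * b, of p⁆) =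
      (⁅A, of p⁆⁻¹ * A * ⁅b, of p⁆⁻¹ * b) * ⁅of l, of p⁆ *
        (⁅A, of p⁆⁻¹ * A * ⁅b, of p⁆⁻¹ * b)⁻¹ := by
    rw [hA]
    simp only [commutatorElement_def]
    group
  rw [e5] at h3
  have h4 := Cz_conj' h3 (mul_mem (mul_mem (mul_mem (inv_mem (hcU _ _ hAU hofp)) hAU)
    (inv_mem (hcU _ _ hbU hofp))) hbU)
  have h5 := h4 (of l') ⟨kil_ne hl'0, kil_ne hl'κ⟩
  refine hne l p l' hl0 hp1 hl'0 hp3.symm hll' hp4 ?_
  rw [map_commutatorElement, commutatorElement_eq_one_iff_commute]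
  exact h5

end

section words

open Classical in
/-- The words of class two. -/
noncomputable def W2 (e : ℕ → ι) : ℕ → Finset (FreeGroup ι)
  | 0 => {1}
  | k + 1 => (W2 e k ×ˢ (Finset.range k).powerset).image (fun p => p.1 * ⁅wd e p.2 k, of (e k)⁆)

open Classical in
/-- The words of class three. -/
noncomputable def W3 (e : ℕ → ι) : ℕ → Finset (FreeGroup ι)
  | 0 => {1}
  | k + 1 => (W3 e k ×ˢ W2 e k).image (fun p => p.1 * ⁅p.2, of (e k)⁆)

lemma W2_mem {e : ℕ → ι} {k : ℕ} {g : FreeGroup ι} (hg : g ∈ W2 e k) :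
    g ∈ ⁅(⊤ : Subgroup (FreeGroup ι)), (⊤ : Subgroup (FreeGroup ι))⁆ ∧
      ∀ c, (∀ a < k, e a ≠ c) → kil c g = g := by
  classical
  induction k generalizing g with
  | zero =>
    rw [W2, Finset.mem_singleton] at hg
    subst hg
    exact ⟨one_mem _, fun c _ => map_one _⟩
  | succ k ih =>
    rw [W2, Finset.mem_image] at hg
    obtain ⟨⟨g', S⟩, h1, rfl⟩ := hg
    rw [Finset.mem_product] at h1
    obtain ⟨hw, hwc⟩ := ih h1.1
    refine ⟨mul_mem hw
      (Subgroup.commutator_mem_commutator (Subgroup.mem_top _) (Subgroup.mem_top _)),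
      fun c hc => ?_⟩
    rw [map_mul, hwc c (fun a ha => hc a (by omega)), map_commutatorElement,
      kil_wd_ne (fun l hl _ => hc l (by omega)), kil_ne (hc k (by omega))]

lemma W3_mem {e : ℕ → ι} {k : ℕ} {g : FreeGroup ι} (hg : g ∈ W3 e k) :
    (∀ T : Subgroup (FreeGroup ι), (∀ w ∈ ⁅(⊤ : Subgroup (FreeGroup ι)),
      (⊤ : Subgroup (FreeGroup ι))⁆, ∀ i, ⁅w, of i⁆ ∈ T) → g ∈ T) ∧
      ∀ c, (∀ a < k, e a ≠ c) → kil c g = g := by
  classical
  induction k generalizing g with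
  | zero =>
    rw [W3, Finset.mem_singleton] at hg
    subst hg
    exact ⟨fun T _ => one_mem _, fun c _ => map_one _⟩
  | succ k ih =>
    rw [W3, Finset.mem_image] at hg
    obtain ⟨⟨g', w⟩, h1, rfl⟩ := hg
    rw [Finset.mem_product] at h1
    obtain ⟨hw, hwc⟩ := ih h1.1
    obtain ⟨h2, h3⟩ := W2_mem h1.2
    refine ⟨fun T hT => mul_mem (hw T hT) (hT _ h2 _), fun c hc => ?_⟩
    rw [map_mul, hwc c (fun a ha => hc a (by omega)), map_commutatorElement,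
      h3 c (fun a ha => hc a (by omega)), kil_ne (hc k (by omega))]

variable {G : Type} [Group G] {i₀ κ : ι} {θ : FreeGroup ι →* G} (h : TrInv i₀ θ)

include h

lemma W2_pair (hne : ∀ a b c, a ≠ i₀ → b ≠ i₀ → c ≠ i₀ → a ≠ b → a ≠ c → b ≠ c →
      θ ⁅⁅of a, of b⁆, of c⁆ ≠ 1)
    (hp : ∀ a b c d : ι, ∃ p, p ≠ a ∧ p ≠ b ∧ p ≠ c ∧ p ≠ d)
    {e : ℕ → ι} {j : ℕ} (hej : ∀ a < j + 1, e a ≠ i₀ ∧ e a ≠ κ)
    (hinj : ∀ a < j + 1, ∀ b < j + 1, e a = e b → a = b) {g g' : FreeGroup ι}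
    (hg : g ∈ W2 e j) (hg' : g' ∈ W2 e j)
    {S S' : Finset ℕ} (hS : S ⊆ Finset.range j) (hS' : S' ⊆ Finset.range j)
    (hX : (g' * ⁅wd e S' j, of (e j)⁆)⁻¹ * (g * ⁅wd e S j, of (e j)⁆) ∈ Cz i₀ κ θ) :
    S = S' := by
  have hU : ∀ g ∈ W2 e j, g ∈ UU i₀ κ ∧ kil (e j) g = g := by
    intro g hg
    obtain ⟨-, h1⟩ := W2_mem hg
    refine ⟨⟨h1 _ fun a ha => (hej a (by omega)).1, h1 _ fun a ha => (hej a (by omega)).2⟩,
      h1 _ fun a ha h' => ?_⟩
    have := hinj a (by omega) j (by omega) h'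
    omega
  ext t
  constructor
  · intro ht
    exact cz_step h hne hp hej hinj (hU g hg).1 (hU g' hg').1 (hU g hg).2 (hU g' hg').2 hX t
      (Finset.mem_range.1 (hS ht)) ht
  · intro ht
    have hX' := inv_mem hX
    rw [mul_inv_rev, inv_inv] at hX'
    exact cz_step h hne hp hej hinj (hU g' hg').1 (hU g hg).1 (hU g' hg').2 (hU g hg).2 hX' t
      (Finset.mem_range.1 (hS' ht)) ht

lemma W2_inj (hne : ∀ a b c, a ≠ i₀ → b ≠ i₀ → c ≠ i₀ → a ≠ b → a ≠ c → b ≠ c →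
      θ ⁅⁅of a, of b⁆, of c⁆ ≠ 1)
    (hp : ∀ a b c d : ι, ∃ p, p ≠ a ∧ p ≠ b ∧ p ≠ c ∧ p ≠ d)
    {e : ℕ → ι} {j : ℕ} (hej : ∀ a < j, e a ≠ i₀ ∧ e a ≠ κ)
    (hinj : ∀ a < j, ∀ b < j, e a = e b → a = b) {g g' : FreeGroup ι}
    (hg : g ∈ W2 e j) (hg' : g' ∈ W2 e j) (hX : g'⁻¹ * g ∈ Cz i₀ κ θ) : g = g' := by
  classical
  induction j generalizing g g' with
  | zero =>
    rw [W2, Finset.mem_singleton] at hg hg'
    rw [hg, hg']
  | succ j ih =>
    rw [W2, Finset.mem_image] at hg hg'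
    obtain ⟨⟨w, S⟩, h1, rfl⟩ := hg
    obtain ⟨⟨w', S'⟩, h2, rfl⟩ := hg'
    rw [Finset.mem_product, Finset.mem_powerset] at h1 h2
    have hS : S = S' := W2_pair h hne hp hej hinj h1.1 h2.1 h1.2 h2.2 hX
    subst hS
    have h3 : w = w' := by
      refine ih (fun a ha => hej a (by omega)) (fun a ha b hb => hinj a (by omega) b (by omega))
        h1.1 h2.1 ?_
      have hcU : ⁅wd e S j, of (e j)⁆ ∈ UU i₀ κ := by
        have hwU : wd e S j ∈ UU i₀ κ := ⟨kil_wd_ne fun a ha _ => (hej a (by omega)).1,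
          kil_wd_ne fun a ha _ => (hej a (by omega)).2⟩
        have hof : (of (e j) : FreeGroup ι) ∈ UU i₀ κ := ⟨kil_ne (hej j (by omega)).1,
          kil_ne (hej j (by omega)).2⟩
        rw [commutatorElement_def]
        exact mul_mem (mul_mem (mul_mem hwU hof) (inv_mem hwU)) (inv_mem hof)
      have h4 := Cz_conj hX hcU
      have e1 : ⁅wd e S j, of (e j)⁆ * ((w' * ⁅wd e S j, of (e j)⁆)⁻¹ *
          (w * ⁅wd e S j, of (e j)⁆)) * (⁅wd e S j, of (e j)⁆)⁻¹ = w'⁻¹ * w := by group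
      simp only at h4
      rwa [e1] at h4
    rw [h3]

lemma W2_card (hne : ∀ a b c, a ≠ i₀ → b ≠ i₀ → c ≠ i₀ → a ≠ b → a ≠ c → b ≠ c →
      θ ⁅⁅of a, of b⁆, of c⁆ ≠ 1)
    (hp : ∀ a b c d : ι, ∃ p, p ≠ a ∧ p ≠ b ∧ p ≠ c ∧ p ≠ d)
    {e : ℕ → ι} {j : ℕ} (hej : ∀ a < j, e a ≠ i₀ ∧ e a ≠ κ)
    (hinj : ∀ a < j, ∀ b < j, e a = e b → a = b) : (W2 e j).card = 2 ^ (j.choose 2) := by
  classical
  induction j with
  | zero => simp [W2]
  | succ j ih =>
    have hin : Set.InjOn (fun p : FreeGroup ι × Finset ℕ => p.1 * ⁅wd e p.2 j, of (e j)⁆)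
        ((W2 e j ×ˢ (Finset.range j).powerset : Finset (FreeGroup ι × Finset ℕ)) :
          Set (FreeGroup ι × Finset ℕ)) := by
      rintro ⟨g, S⟩ h1 ⟨g', S'⟩ h2 h3
      rw [Finset.mem_coe, Finset.mem_product, Finset.mem_powerset] at h1 h2
      simp only at h3
      have hS : S = S' := by
        refine W2_pair (κ := κ) h hne hp hej hinj h1.1 h2.1 h1.2 h2.2 ?_
        rw [h3, inv_mul_cancel]
        exact one_mem _
      subst hS
      rw [mul_right_cancel h3]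
    rw [W2, Finset.card_image_of_injOn hin, Finset.card_product, ih (fun a ha => hej a (by omega))
      (fun a ha b hb => hinj a (by omega) b (by omega)), Finset.card_powerset, Finset.card_range,
      ← pow_add]
    congr 1
    rw [Nat.choose_succ_succ' j 1, Nat.choose_one_right, add_comm]

/-- The words of class three have different images. -/
lemma W3_inj (hne : ∀ a b c, a ≠ i₀ → b ≠ i₀ → c ≠ i₀ → a ≠ b → a ≠ c → b ≠ c →
      θ ⁅⁅of a, of b⁆, of c⁆ ≠ 1)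
    (hp : ∀ a b c d : ι, ∃ p, p ≠ a ∧ p ≠ b ∧ p ≠ c ∧ p ≠ d)
    {e : ℕ → ι} {j : ℕ} (hej : ∀ a < j, e a ≠ i₀)
    (hinj : ∀ a < j, ∀ b < j, e a = e b → a = b) {g g' : FreeGroup ι}
    (hg : g ∈ W3 e j) (hg' : g' ∈ W3 e j) (hX : θ g = θ g') : g = g' := by
  classical
  induction j generalizing g g' with
  | zero =>
    rw [W3, Finset.mem_singleton] at hg hg'
    rw [hg, hg']
  | succ j ih =>
    rw [W3, Finset.mem_image] at hg hg'
    obtain ⟨⟨w, v⟩, h1, rfl⟩ := hg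
    obtain ⟨⟨w', v'⟩, h2, rfl⟩ := hg'
    rw [Finset.mem_product] at h1 h2
    simp only at h1 h2 hX ⊢
    have hjne : ∀ a < j, e a ≠ e j := fun a ha h' => by
      have := hinj a (by omega) j (by omega) h'
      omega
    have hv : v = v' := by
      refine W2_inj (κ := e j) h hne hp (fun a ha => ⟨hej a (by omega), hjne a ha⟩)
        (fun a ha b hb => hinj a (by omega) b (by omega)) h1.2 h2.2 ?_
      intro u hu
      have h3 := h.step1 (hej j (by omega)) ((W3_mem h1.1).2 _ hjne) ((W3_mem h2.1).2 _ hjne)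
        ((W2_mem h1.2).2 _ hjne) ((W2_mem h2.2).2 _ hjne) hX hu.1 hu.2
      rw [map_commutatorElement, commutatorElement_eq_one_iff_commute] at h3
      exact h3
    subst hv
    rw [map_mul, map_mul] at hX
    rw [ih (fun a ha => hej a (by omega)) (fun a ha b hb => hinj a (by omega) b (by omega))
      h1.1 h2.1 (mul_right_cancel hX)]

lemma W3_card (hne : ∀ a b c, a ≠ i₀ → b ≠ i₀ → c ≠ i₀ → a ≠ b → a ≠ c → b ≠ c →
      θ ⁅⁅of a, of b⁆, of c⁆ ≠ 1)
    (hp : ∀ a b c d : ι, ∃ p, p ≠ a ∧ p ≠ b ∧ p ≠ c ∧ p ≠ d)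
    {e : ℕ → ι} {j : ℕ} (hej : ∀ a < j, e a ≠ i₀)
    (hinj : ∀ a < j, ∀ b < j, e a = e b → a = b) : (W3 e j).card = 2 ^ (j.choose 3) := by
  classical
  induction j with
  | zero => simp [W3]
  | succ j ih =>
    have hjne : ∀ a < j, e a ≠ e j := fun a ha h' => by
      have := hinj a (by omega) j (by omega) h'
      omega
    have hin : Set.InjOn (fun p : FreeGroup ι × FreeGroup ι => p.1 * ⁅p.2, of (e j)⁆)
        ((W3 e j ×ˢ W2 e j : Finset (FreeGroup ι × FreeGroup ι)) :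
          Set (FreeGroup ι × FreeGroup ι)) := by
      rintro ⟨w, v⟩ h1 ⟨w', v'⟩ h2 h3
      rw [Finset.mem_coe, Finset.mem_product] at h1 h2
      simp only at h1 h2 h3
      have hX : θ (w * ⁅v, of (e j)⁆) = θ (w' * ⁅v', of (e j)⁆) := by rw [h3]
      have hv : v = v' := by
        refine W2_inj (κ := e j) h hne hp (fun a ha => ⟨hej a (by omega), hjne a ha⟩)
          (fun a ha b hb => hinj a (by omega) b (by omega)) h1.2 h2.2 ?_
        intro u hu
        have h3 := h.step1 (hej j (by omega)) ((W3_mem h1.1).2 _ hjne) ((W3_mem h2.1).2 _ hjne)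
          ((W2_mem h1.2).2 _ hjne) ((W2_mem h2.2).2 _ hjne) hX hu.1 hu.2
        rw [map_commutatorElement, commutatorElement_eq_one_iff_commute] at h3
        exact h3
      subst hv
      rw [mul_right_cancel h3]
    rw [W3, Finset.card_image_of_injOn hin, Finset.card_product, ih (fun a ha => hej a (by omega))
      (fun a ha b hb => hinj a (by omega) b (by omega)),
      W2_card (κ := e j) h hne hp (fun a ha => ⟨hej a (by omega), hjne a ha⟩)
        (fun a ha b hb => hinj a (by omega) b (by omega)), ← pow_add]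
    congr 1
    rw [Nat.choose_succ_succ' j 2, add_comm]

end words

end Pool.Agent.H12.CSP
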