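import Pool.Agent.H12.CSP.T6

set_option autoImplicit false
set_option linter.unusedSectionVars false
set_option linter.unusedSimpArgs false
set_option linter.unusedVariables false
set_option linter.unnecessarySeqFocus false

/-! The lower bound. -/

namespace Pool.Agent.H12.CSP

open Pool.Agent.Helper460_OutF Pool.Agent.Helper460_CSP
open FreeGroup (of)
open scoped commutatorElement

variable {ι : Type} [DecidableEq ι] [Fintype ι]

section comm

lemma rr_mem_IA {i : ι} {u : FreeGroup ι}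
    (hu : u ∈ ⁅(⊤ : Subgroup (FreeGroup ι)), (⊤ : Subgroup (FreeGroup ι))⁆) :
    rr i u ∈ IA (FreeGroup ι) := by
  have h1 : ⁅(⊤ : Subgroup (FreeGroup ι)), (⊤ : Subgroup (FreeGroup ι))⁆ ≤
      (IA (FreeGroup ι)).comap (rr i) := by
    rw [Subgroup.commutator_le]
    intro a _ b _
    exact rr_comm_mem_IA i a b
  exact h1 hu

/-- Transvections by commutators with a commutator are in the derived subgroup. -/
lemma rr_comm_mem {i : ι} {u : FreeGroup ι}
    (hu : u ∈ ⁅(⊤ : Subgroup (FreeGroup ι)), (⊤ : Subgroup (FreeGroup ι))⁆) (x : FreeGroup ι) :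
    rr i ⁅u, x⁆ ∈ ⁅IA (FreeGroup ι), IA (FreeGroup ι)⁆ := by
  have key : ∀ y : FreeGroup ι, kil i y = y →
      (MulAut.conj y * cc i y) * rr i u = rr i (y * u * y⁻¹) * (MulAut.conj y * cc i y) := by
    intro y hy
    apply aut_ext
    intro j
    simp only [MulAut.mul_apply]
    by_cases hj : j = i
    · subst hj
      rw [rr_self, map_mul (cc j y), cc_self, hy, cc_fix j y (kil_kil j u)]
      have e1 : MulAut.conj y (y⁻¹ * of j * y) = of j := by
        rw [MulAut.conj_apply]; group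
      rw [map_mul (MulAut.conj y), e1, rr_self, map_mul, map_mul, map_inv, hy, MulAut.conj_apply]
    · rw [rr_ne hj, cc_ne hj, MulAut.conj_apply, rr_fix]
      rw [map_mul, map_mul, map_inv, hy, kil_ne hj]
  have h1 : ∀ y : FreeGroup ι, kil i y = y → rr i ⁅y, u⁆ ∈ ⁅IA (FreeGroup ι), IA (FreeGroup ι)⁆ := by
    intro y hy
    have e : rr i ⁅y, u⁆ = ⁅MulAut.conj y * cc i y, rr i u⁆ := by
      have h2 := key y hy
      rw [commutatorElement_def (MulAut.conj y * cc i y), h2, mul_inv_cancel_right, ← map_inv,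
        ← map_mul, commutatorElement_def]
    rw [e]
    exact Subgroup.commutator_mem_commutator (mul_mem (conj_mem_IA _) (cc_mem_IA _ _))
      (rr_mem_IA hu)
  have h2 := h1 (kil i x) (kil_kil i x)
  have e : rr i ⁅kil i x, u⁆ = rr i ⁅x, u⁆ := by
    rw [← rr_kil i ⁅kil i x, u⁆, ← rr_kil i ⁅x, u⁆, map_commutatorElement (kil i),
      map_commutatorElement (kil i), kil_kil]
  rw [e] at h2
  rw [← commutatorElement_inv, map_inv]
  exact inv_mem h2

lemma W3_IA {e : ℕ → ι} {k : ℕ} {g : FreeGroup ι} (hg : g ∈ W3 e k) (i : ι) :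
    rr i g ∈ ⁅IA (FreeGroup ι), IA (FreeGroup ι)⁆ :=
  (W3_mem hg).1 ((⁅IA (FreeGroup ι), IA (FreeGroup ι)⁆ : Subgroup _).comap (rr i))
    (fun w hw j => rr_comm_mem hw _)

end comm

section fam

/-- Skip one letter. -/
def skip (j : ℕ) (e : ℕ → ι) : ℕ → ι := fun l => if l < j then e l else e (l + 1)

lemma skip_ne {j m : ℕ} {e : ℕ → ι} (hj : j < m) (hinj : ∀ a < m, ∀ b < m, e a = e b → a = b) :
    ∀ a < m - 1, skip j e a ≠ e j := by
  intro a ha
  unfold skip
  split_ifs with h1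
  · intro h2
    have := hinj a (by omega) j hj h2
    omega
  · intro h2
    have := hinj (a + 1) (by omega) j hj h2
    omega

lemma skip_inj {j m : ℕ} {e : ℕ → ι} (hj : j < m) (hinj : ∀ a < m, ∀ b < m, e a = e b → a = b) :
    ∀ a < m - 1, ∀ b < m - 1, skip j e a = skip j e b → a = b := by
  intro a ha b hb
  unfold skip
  split_ifs with h1 h2 h2
  · intro h; exact hinj a (by omega) b (by omega) h
  · intro h; have := hinj a (by omega) (b + 1) (by omega) h; omega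
  · intro h; have := hinj (a + 1) (by omega) b (by omega) h; omega
  · intro h; have := hinj (a + 1) (by omega) (b + 1) (by omega) h; omega

lemma skip_avoid {j m : ℕ} {e : ℕ → ι} {i₀ : ι} (h : ∀ a < m, e a ≠ i₀) :
    ∀ a < m - 1, skip j e a ≠ i₀ := by
  intro a ha
  unfold skip
  split_ifs with h1
  · exact h a (by omega)
  · exact h (a + 1) (by omega)

variable {G : Type} [Group G] (q : MulAut (FreeGroup ι) →* G) (i₀ : ι)

open Classical in
/-- The final family. -/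
noncomputable def Fam (e : ℕ → ι) (m : ℕ) : ℕ → Finset G
  | 0 => (W3 e m).image (fun g => q (rr i₀ g))
  | j + 1 => (Fam e m j ×ˢ W3 (skip j e) (m - 1)).image (fun p => q (rr (e j) p.2) * p.1)

variable {q i₀}

lemma Fam_mem {e : ℕ → ι} {m j : ℕ} (hj : j ≤ m) (he0 : ∀ a < m, e a ≠ i₀)
    (hinj : ∀ a < m, ∀ b < m, e a = e b → a = b) {x : G} (hx : x ∈ Fam q i₀ e m j) :
    (∀ l, j ≤ l → l < m → x * q (ll i₀ (of (e l))) * x⁻¹ = q (ll i₀ (of (e l)))) ∧
      ∃ α ∈ ⁅IA (FreeGroup ι), IA (FreeGroup ι)⁆, q α = x := by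
  classical
  induction j generalizing x with
  | zero =>
    rw [Fam, Finset.mem_image] at hx
    obtain ⟨g, hg, rfl⟩ := hx
    refine ⟨fun l _ _ => ?_, _, W3_IA hg i₀, rfl⟩
    have hc : Commute (q (ll i₀ (of (e l)))) (q (rr i₀ g)) := ll_rr_commute i₀ _ _
    rw [← hc.eq, mul_inv_cancel_right]
  | succ j ih =>
    rw [Fam, Finset.mem_image] at hx
    obtain ⟨⟨x, g⟩, h1, rfl⟩ := hx
    rw [Finset.mem_product] at h1
    obtain ⟨h2, α, hα, hαx⟩ := ih (by omega) h1.1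
    simp only at h1 h2 hαx ⊢
    have hgk : kil i₀ g = g := (W3_mem h1.2).2 _ (skip_avoid he0)
    refine ⟨fun l hl hlm => ?_, rr (e j) g * α, mul_mem (W3_IA h1.2 _) hα, by rw [map_mul, hαx]⟩
    have hP : Pres i₀ (rr (e j) g) := pres_rr (he0 j (by omega)).symm hgk
    have e1 := conj_ll (q := q) hP (of (e l))
    rw [rr_ne (fun h' => by
      have := hinj l hlm j (by omega) h'
      omega)] at e1
    calc q (rr (e j) g) * x * q (ll i₀ (of (e l))) * (q (rr (e j) g) * x)⁻¹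
        = q (rr (e j) g) * (x * q (ll i₀ (of (e l))) * x⁻¹) * (q (rr (e j) g))⁻¹ := by group
      _ = _ := by rw [h2 l (by omega) hlm, e1]

lemma rr_of_ll {x y : FreeGroup ι} (p : ι) (h : q (ll p x) = q (ll p y)) :
    q (rr p x) = q (rr p y) := by
  rw [← rho_rr', ← rho_rr', map_mul, map_mul, map_mul, map_mul] at h
  exact mul_left_cancel (mul_right_cancel h)

lemma Fam_card (htr : TrInv i₀ (q.comp (rr i₀)))
    (hne : ∀ a b c, a ≠ i₀ → b ≠ i₀ → c ≠ i₀ → a ≠ b → a ≠ c → b ≠ c →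
      q (rr i₀ ⁅⁅of a, of b⁆, of c⁆) ≠ 1)
    (hp : ∀ a b c d : ι, ∃ p, p ≠ a ∧ p ≠ b ∧ p ≠ c ∧ p ≠ d)
    {e : ℕ → ι} {m j : ℕ} (hj : j ≤ m) (he0 : ∀ a < m, e a ≠ i₀)
    (hinj : ∀ a < m, ∀ b < m, e a = e b → a = b) :
    (Fam q i₀ e m j).card = 2 ^ (m.choose 3 + j * (m - 1).choose 3) := by
  classical
  induction j with
  | zero =>
    rw [Fam, Finset.card_image_of_injOn, W3_card htr hne hp he0 hinj]
    · simp
    · intro g hg g' hg' h'
      exact W3_inj htr hne hp he0 hinj (Finset.mem_coe.1 hg) (Finset.mem_coe.1 hg') h'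
  | succ j ih =>
    have hin : Set.InjOn (fun p : G × FreeGroup ι => q (rr (e j) p.2) * p.1)
        ((Fam q i₀ e m j ×ˢ W3 (skip j e) (m - 1) : Finset (G × FreeGroup ι)) :
          Set (G × FreeGroup ι)) := by
      rintro ⟨x, g⟩ h1 ⟨x', g'⟩ h2 h3
      rw [Finset.mem_coe, Finset.mem_product] at h1 h2
      simp only at h1 h2 h3
      have key : ∀ {x : G} {g : FreeGroup ι}, x ∈ Fam q i₀ e m j → g ∈ W3 (skip j e) (m - 1) →
          (q (rr (e j) g) * x) * q (ll i₀ (of (e j))) * (q (rr (e j) g) * x)⁻¹ =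
            q (ll i₀ (of (e j))) * q (ll i₀ g) := by
        intro x g hx hg
        have hgk : kil i₀ g = g := (W3_mem hg).2 _ (skip_avoid he0)
        have hgj : kil (e j) g = g := (W3_mem hg).2 _ (skip_ne (by omega) hinj)
        have hP : Pres i₀ (rr (e j) g) := pres_rr (he0 j (by omega)).symm hgk
        have e1 := conj_ll (q := q) hP (of (e j))
        rw [rr_self, hgj, map_mul (ll i₀), map_mul q] at e1
        rw [← e1]
        calc (q (rr (e j) g) * x) * q (ll i₀ (of (e j))) * (q (rr (e j) g) * x)⁻¹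
            = q (rr (e j) g) * (x * q (ll i₀ (of (e j))) * x⁻¹) * (q (rr (e j) g))⁻¹ := by group
          _ = _ := by rw [(Fam_mem (by omega) he0 hinj hx).1 j le_rfl (by omega)]
      have h4 : q (ll i₀ g) = q (ll i₀ g') := by
        apply mul_left_cancel (a := q (ll i₀ (of (e j))))
        rw [← key h1.1 h1.2, ← key h2.1 h2.2, h3]
      have hgg : g = g' := W3_inj htr hne hp (skip_avoid he0) (skip_inj (by omega) hinj) h1.2 h2.2
        (rr_of_ll i₀ h4)
      subst hgg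
      rw [mul_left_cancel h3]
    rw [Fam, Finset.card_image_of_injOn hin, Finset.card_product, ih (by omega),
      W3_card htr hne hp (skip_avoid he0) (skip_inj (by omega) hinj), ← pow_add]
    congr 1
    ring

end fam

section idx

variable {N : Subgroup (MulAut (FreeGroup ι))} [hN : N.Normal]

lemma trInv_rr (i₀ : ι) : TrInv i₀ ((QuotientGroup.mk' N).comp (rr i₀)) where
  inv k u hk hu x y hxy := by
    have hP : Pres i₀ (rr k u) := pres_rr hk.symm hu
    rw [MonoidHom.comp_apply, MonoidHom.comp_apply] at hxy ⊢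
    rw [← hP.rr, ← hP.rr, map_mul, map_mul, map_mul, map_mul, hxy]

/-- If no transvection by a triple commutator is in `N`, the image of `[IA, IA]` is large. -/
lemma relIndex_ge3 [hfi : N.FiniteIndex] (i₀ : ι) {e : ℕ → ι} {m : ℕ}
    (hp : ∀ a b c d : ι, ∃ p, p ≠ a ∧ p ≠ b ∧ p ≠ c ∧ p ≠ d)
    (he : ∀ a < m, ∀ b < m, e a = e b → a = b) (he0 : ∀ a < m, e a ≠ i₀)
    (hne : ∀ a b c, a ≠ i₀ → b ≠ i₀ → c ≠ i₀ → a ≠ b → a ≠ c → b ≠ c →
      rr i₀ ⁅⁅of a, of b⁆, of c⁆ ∉ N) :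
    2 ^ (m.choose 3 + m * (m - 1).choose 3) ≤ N.relIndex ⁅IA (FreeGroup ι), IA (FreeGroup ι)⁆ := by
  set q : MulAut (FreeGroup ι) →* MulAut (FreeGroup ι) ⧸ N := QuotientGroup.mk' N with hq
  have hc := Fam_card (q := q) (trInv_rr (N := N) i₀) (fun a b c h1 h2 h3 h4 h5 h6 h7 => by
    rw [hq, QuotientGroup.mk'_apply, QuotientGroup.eq_one_iff] at h7
    exact hne a b c h1 h2 h3 h4 h5 h6 h7) hp le_rfl he0 he
  let f : (⁅IA (FreeGroup ι), IA (FreeGroup ι)⁆ : Subgroup _) →* MulAut (FreeGroup ι) ⧸ N :=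
    (QuotientGroup.mk' N).comp (Subgroup.subtype _)
  have hker : f.ker = N.subgroupOf ⁅IA (FreeGroup ι), IA (FreeGroup ι)⁆ := by
    ext x
    rw [MonoidHom.mem_ker, Subgroup.mem_subgroupOf]
    exact QuotientGroup.eq_one_iff _
  have hfin : Finite (MulAut (FreeGroup ι) ⧸ N) := Subgroup.finite_quotient_of_finiteIndex
  rw [← hc, Subgroup.relIndex, ← hker, Subgroup.index_ker]
  have hsub : ((Fam q i₀ e m m : Finset _) : Set (MulAut (FreeGroup ι) ⧸ N)) ⊆ f.range := by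
    intro g hg
    obtain ⟨-, α, hα, hαg⟩ := Fam_mem le_rfl he0 he (Finset.mem_coe.1 hg)
    exact ⟨⟨_, hα⟩, hαg⟩
  rw [← Set.ncard_coe_finset]
  exact Set.ncard_le_ncard hsub (Set.toFinite _)

lemma pmA_rr3 (σ : Equiv.Perm ι) {i j k l : ι} (hij : i ≠ j) (hik : i ≠ k) (hil : i ≠ l) :
    pmA σ * rr i ⁅⁅of j, of k⁆, of l⁆ * (pmA σ)⁻¹ =
      rr (σ i) ⁅⁅of (σ j), of (σ k)⁆, of (σ l)⁆ := by
  apply aut_ext
  intro m
  obtain ⟨m', rfl⟩ := σ.surjective m
  rw [MulAut.mul_apply, MulAut.mul_apply, pmA_inv_of]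
  by_cases h : m' = i
  · subst h
    rw [rr_self, rr_self]
    simp only [map_mul, map_inv, map_commutatorElement, kil_ne hij.symm, kil_ne hik.symm,
      kil_ne hil.symm, kil_ne (σ.injective.ne hij.symm), kil_ne (σ.injective.ne hik.symm),
      kil_ne (σ.injective.ne hil.symm), pmA_of]
  · rw [rr_ne h, rr_ne (σ.injective.ne h), pmA_of]

lemma exists_perm4 {i j k l a b c d : ι} (hij : i ≠ j) (hik : i ≠ k) (hil : i ≠ l) (hjk : j ≠ k)
    (hjl : j ≠ l) (hkl : k ≠ l) (hab : a ≠ b) (hac : a ≠ c) (had : a ≠ d) (hbc : b ≠ c)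
    (hbd : b ≠ d) (hcd : c ≠ d) :
    ∃ σ : Equiv.Perm ι, σ i = a ∧ σ j = b ∧ σ k = c ∧ σ l = d := by
  obtain ⟨s, h1, h2, h3⟩ := exists_perm hij hik hjk hab hac hbc
  refine ⟨Equiv.swap (s l) d * s, ?_, ?_, ?_, ?_⟩
  · rw [Equiv.Perm.mul_apply, h1]
    refine Equiv.swap_apply_of_ne_of_ne ?_ had
    rw [← h1]; exact s.injective.ne hil
  · rw [Equiv.Perm.mul_apply, h2]
    refine Equiv.swap_apply_of_ne_of_ne ?_ hbd
    rw [← h2]; exact s.injective.ne hjl
  · rw [Equiv.Perm.mul_apply, h3]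
    refine Equiv.swap_apply_of_ne_of_ne ?_ hcd
    rw [← h3]; exact s.injective.ne hkl
  · rw [Equiv.Perm.mul_apply, Equiv.swap_apply_left]

include hN in
/-- One transvection by a triple commutator gives all of them. -/
lemma all_tri {i j k l : ι} (hij : i ≠ j) (hik : i ≠ k) (hil : i ≠ l) (hjk : j ≠ k)
    (hjl : j ≠ l) (hkl : k ≠ l) (h : rr i ⁅⁅of j, of k⁆, of l⁆ ∈ N) :
    ∀ a b c d, a ≠ b → a ≠ c → a ≠ d → b ≠ c → b ≠ d → c ≠ d →
      rr a ⁅⁅of b, of c⁆, of d⁆ ∈ N := by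
  intro a b c d hab hac had hbc hbd hcd
  obtain ⟨σ, rfl, rfl, rfl, rfl⟩ := exists_perm4 hij hik hil hjk hjl hkl hab hac had hbc hbd hcd
  rw [← pmA_rr3 σ hij hik hil]
  exact hN.conj_mem _ h _

lemma exists_ne3 (h4 : 4 ≤ Fintype.card ι) (i j k : ι) : ∃ l, l ≠ i ∧ l ≠ j ∧ l ≠ k := by
  by_contra hcon
  push Not at hcon
  have h1 : (Finset.univ : Finset ι) ⊆ {i, j, k} := by
    intro l _
    by_cases h2 : l = i
    · simp [h2]
    · by_cases h3 : l = j
      · simp [h3]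
      · simp [hcon l h2 h3]
  have h2 := Finset.card_le_card h1
  have h3 : ({i, j, k} : Finset ι).card ≤ 3 := Finset.card_le_three
  rw [Finset.card_univ] at h2
  omega

lemma exists_ne4 (h5 : 5 ≤ Fintype.card ι) (i j k l : ι) :
    ∃ p, p ≠ i ∧ p ≠ j ∧ p ≠ k ∧ p ≠ l := by
  by_contra hcon
  push Not at hcon
  have h1 : (Finset.univ : Finset ι) ⊆ {i, j, k, l} := by
    intro p _
    by_cases h2 : p = i
    · simp [h2]
    · by_cases h3 : p = j
      · simp [h3]
      · by_cases h4 : p = k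
        · simp [h4]
        · simp [hcon p h2 h3 h4]
  have h2 := Finset.card_le_card h1
  have h3 : ({i, j, k, l} : Finset ι).card ≤ 4 := Finset.card_le_four
  rw [Finset.card_univ] at h2
  omega

lemma k3_mk (h4 : 4 ≤ Fintype.card ι) (hinn : ∀ g, MulAut.conj g ∈ N) {i j k l : ι}
    (hij : i ≠ j) (hik : i ≠ k) (hil : i ≠ l) (hjk : j ≠ k)
    (hjl : j ≠ l) (hkl : k ≠ l) (h : rr i ⁅⁅of j, of k⁆, of l⁆ ∈ N) :
    K3 (QuotientGroup.mk' N) where
  inn g := (QuotientGroup.eq_one_iff _).2 (hinn g)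
  tri a b c d h1 h2 h3 h5 h6 h7 := (QuotientGroup.eq_one_iff _).2
    (all_tri hij hik hil hjk hjl hkl h a b c d h1 h2 h3 h5 h6 h7)
  ex := exists_ne3 h4

/-- The divisibility. -/
lemma relIndex_dvd [LinearOrder ι] (h : K3 (QuotientGroup.mk' N)) :
    N.relIndex ⁅IA (FreeGroup ι), IA (FreeGroup ι)⁆ ∣
      (Fintype.card ι + 1) ^ (Fintype.card ι).choose 2 := by
  let f : (⁅IA (FreeGroup ι), IA (FreeGroup ι)⁆ : Subgroup _) →* MulAut (FreeGroup ι) ⧸ N :=
    (QuotientGroup.mk' N).comp (Subgroup.subtype _)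
  have hker : f.ker = N.subgroupOf ⁅IA (FreeGroup ι), IA (FreeGroup ι)⁆ := by
    ext x
    rw [MonoidHom.mem_ker, Subgroup.mem_subgroupOf]
    exact QuotientGroup.eq_one_iff _
  rw [Subgroup.relIndex, ← hker, Subgroup.index_ker]
  have hle : f.range ≤ h.Zs := by
    rintro _ ⟨x, rfl⟩
    exact h.comm_IA_Zs x.2
  exact (Subgroup.card_dvd_of_le hle).trans h.card_Zs

end idx

end Pool.Agent.H12.CSP
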